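import Pool.Agent.Helper63.Rd.Defs
import Pool.Agent.Helper63.Mk.Zs

/-!
Project Rd (helper63): commutators in wild groups.
-/

set_option autoImplicit false

open Set Filter Topology NormedSpace
open scoped Matrix commutatorElement

namespace Pool.Agent.Helper63.Rd

open Pool.Agent.Helper63.Mk

variable {H : Type} [Group H] {D : H →* M2}

/-- unipotents in the closure of a nondiscrete group -/
theorem cl_unip (hD : Wild D)
    (hnd : ∀ ε : ℝ, 0 < ε → ∃ γ, rl D γ ≠ 1 ∧ ‖rl D γ - 1‖ < ε) :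
    (∀ t : ℝ, aff !![1, t; 0, 1] 0 1 ∈ Cl (rl D)) ∧
      (∀ t : ℝ, aff !![1, 0; t, 1] 0 1 ∈ Cl (rl D)) := by
  obtain ⟨ξ, hξ, hξ0⟩ := lie_ne hnd
  have htra : ∀ η ∈ Lie (rl D), tra η = 0 := by
    intro η hη
    have h1 := exp_smul_tendsto η
    have h2 := (tra_cont.tendsto η).comp h1
    refine tendsto_nhds_unique h2 ?_
    have h3 : ∀ T : AA, T ∈ Cl (rl D) → tra T = 0 := by
      intro T hT
      have hcl : IsClosed {T : AA | tra T = 0} := isClosed_eq tra_cont continuous_const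
      refine closure_minimal ?_ hcl hT
      rintro _ ⟨γ, rfl⟩
      exact tra_aff _ _ _
    refine tendsto_const_nhds.congr fun n => ?_
    have h4 := h3 _ (hη ((n : ℝ)⁻¹))
    show (0 : V2) = (((n : ℝ) • (exp ((n : ℝ)⁻¹ • η) - 1) : AA) (0, 1)).1
    have h5 : (exp ((n : ℝ)⁻¹ • η) (0, 1) : V2 × ℝ).1 = 0 := h4
    have h6 : (((n : ℝ) • (exp ((n : ℝ)⁻¹ • η) - 1) : AA) (0, 1)).1 =
        (n : ℝ) • ((exp ((n : ℝ)⁻¹ • η) (0, 1) : V2 × ℝ).1 - ((0, 1) : V2 × ℝ).1) := rfl
    rw [h6, h5]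
    simp
  let L : Submodule ℝ M2 :=
    { carrier := {A | aff A 0 0 ∈ Lie (rl D)}
      zero_mem' := by
        show aff 0 0 0 ∈ Lie (rl D)
        rw [aff_zero]; exact Submodule.zero_mem _
      add_mem' := by
        intro a b ha hb
        show aff (a + b) 0 0 ∈ Lie (rl D)
        have := (Lie (rl D)).add_mem ha hb
        rwa [aff_add, add_zero, add_zero] at this
      smul_mem' := by
        intro c a ha
        show aff (c • a) 0 0 ∈ Lie (rl D)
        have := (Lie (rl D)).smul_mem c ha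
        rwa [aff_smul, smul_zero, mul_zero] at this }
  have hall : ∀ Y : M2, Y 1 1 = -Y 0 0 → aff Y 0 0 ∈ Lie (rl D) := by
    have hs := lie_shape _ hξ
    rw [htra ξ hξ] at hs
    refine lie_top hD L ?_ ?_ (C := lin ξ) (by
      show aff (lin ξ) 0 0 ∈ Lie (rl D)
      rw [← hs]; exact hξ) ?_
    · intro X hX
      have := lie_trace _ hD.det (show aff X 0 0 ∈ Lie (rl D) from hX)
      rwa [lin_aff] at this
    · intro γ X hX
      have h1 := lie_conj (show aff X 0 0 ∈ Lie (rl D) from hX) γ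
      rw [rl_apply, rl_apply, aff_mul, aff_mul] at h1
      show aff (D γ * X * D γ⁻¹) 0 0 ∈ Lie (rl D)
      simpa using h1
    · intro h0
      rw [h0, aff_zero] at hs
      exact hξ0 hs
  -- unipotents
  have hu : ∀ t : ℝ, aff !![1, t; 0, 1] 0 1 ∈ Cl (rl D) := by
    intro t
    have h1 := hall !![0, t; 0, 0] (by simp) 1
    rw [one_smul, exp_sq_zero (by
      rw [aff_mul]
      have : (!![0, t; 0, 0] * !![0, t; 0, 0] : M2) = 0 := by
        apply m2ext <;> simp
      rw [this]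
      simpa using aff_zero), ← aff_one, aff_add] at h1
    have e : (1 + !![0, t; 0, 0] : M2) = !![1, t; 0, 1] := by
      apply m2ext <;> simp
    rw [e] at h1
    simpa using h1
  have hl : ∀ t : ℝ, aff !![1, 0; t, 1] 0 1 ∈ Cl (rl D) := by
    intro t
    have h1 := hall !![0, 0; t, 0] (by simp) 1
    rw [one_smul, exp_sq_zero (by
      rw [aff_mul]
      have : (!![0, 0; t, 0] * !![0, 0; t, 0] : M2) = 0 := by
        apply m2ext <;> simp
      rw [this]
      simpa using aff_zero), ← aff_one, aff_add] at h1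
    have e : (1 + !![0, 0; t, 0] : M2) = !![1, 0; t, 1] := by
      apply m2ext <;> simp
    rw [e] at h1
    simpa using h1
  exact ⟨hu, hl⟩

theorem D_inv_adj (hD : Wild D) (γ : H) : D γ⁻¹ = (D γ).det • (D γ).adjugate := by
  have hsq : (D γ).det * (D γ).det = 1 := by
    have := hD.det γ
    rw [← abs_mul_abs_self, this, one_mul]
  calc D γ⁻¹ = D γ⁻¹ * ((D γ).det • ((D γ).det • (1 : M2))) := by
        rw [smul_smul, hsq, one_smul, mul_one]
    _ = D γ⁻¹ * ((D γ).det • (D γ * (D γ).adjugate)) := by rw [Matrix.mul_adjugate]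
    _ = (D γ).det • ((D γ⁻¹ * D γ) * (D γ).adjugate) := by
        rw [mul_smul_comm, mul_assoc]
    _ = _ := by rw [D_inv', one_mul]

/-- the commutator of matrices -/
noncomputable def cm (A B : M2) : M2 := A * B * (A.det • A.adjugate) * (B.det • B.adjugate)

theorem cm_cont : Continuous fun p : M2 × M2 => cm p.1 p.2 := by
  unfold cm
  have h1 : Continuous fun A : M2 => A.det • A.adjugate :=
    det_cont.smul continuous_id.matrix_adjugate
  exact ((continuous_fst.matrix_mul continuous_snd).matrix_mul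
    (h1.comp continuous_fst)).matrix_mul (h1.comp continuous_snd)

theorem D_comm (hD : Wild D) (g h : H) : D ⁅g, h⁆ = cm (D g) (D h) := by
  rw [commutatorElement_def, map_mul, map_mul, map_mul, D_inv_adj hD, D_inv_adj hD, cm]

theorem cm_ul (t s : ℝ) : cm !![1, t; 0, 1] !![1, 0; s, 1] =
    !![(1 + t * s) ^ 2 - t * s, -(t ^ 2 * s); t * s ^ 2, 1 - t * s] := by
  unfold cm
  rw [Matrix.det_fin_two_of, Matrix.det_fin_two_of, Matrix.adjugate_fin_two_of,
    Matrix.adjugate_fin_two_of]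
  apply m2ext <;> simp [Matrix.mul_apply, Fin.sum_univ_two] <;> ring

/-- small noncommuting commutators -/
theorem comm_pair (hD : Wild D)
    (hnd : ∀ ε : ℝ, 0 < ε → ∃ γ, rl D γ ≠ 1 ∧ ‖rl D γ - 1‖ < ε) (δ : ℝ) (hδ : 0 < δ) :
    ∃ g h k : H, (∀ i j, |D ⁅g, h⁆ i j - (1 : M2) i j| < δ) ∧
      (∀ i j, |D ⁅g, k⁆ i j - (1 : M2) i j| < δ) ∧ D ⁅g, h⁆ 0 0 + D ⁅g, h⁆ 1 1 ≠ 2 ∧
      D ⁅g, h⁆ * D ⁅g, k⁆ ≠ D ⁅g, k⁆ * D ⁅g, h⁆ := by
  obtain ⟨hu, hl⟩ := cl_unip hD hnd
  -- the parameter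
  obtain ⟨t, ht0, ht1, ht2⟩ : ∃ t : ℝ, 0 < t ∧ t ≤ 1 / 4 ∧ t ≤ δ / 4 :=
    ⟨min (1 / 4) (δ / 4), by positivity, min_le_left _ _, min_le_right _ _⟩
  -- sequences
  obtain ⟨x, hx, hxl⟩ := mem_closure_iff_seq_limit.1 (hu t)
  obtain ⟨y, hy, hyl⟩ := mem_closure_iff_seq_limit.1 (hl t)
  obtain ⟨z, hz, hzl⟩ := mem_closure_iff_seq_limit.1 (hl (-t))
  choose g hg using hx
  choose h hh using hy
  choose k hk using hz
  have cv : ∀ (x : ℕ → AA) (g : ℕ → H) (A : M2), (∀ n, rl D (g n) = x n) →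
      Tendsto x atTop (𝓝 (aff A 0 1)) → Tendsto (fun n => D (g n)) atTop (𝓝 A) := by
    intro x g A hg hx
    have h1 := (lin_cont.tendsto _).comp hx
    rw [lin_aff] at h1
    refine h1.congr fun n => ?_
    show lin (x n) = _
    rw [← hg, rl_apply, lin_aff]
  have tg := cv x g _ hg hxl
  have th := cv y h _ hh hyl
  have tk := cv z k _ hk hzl
  have ca : Tendsto (fun n => D ⁅g n, h n⁆) atTop (𝓝 (cm !![1, t; 0, 1] !![1, 0; t, 1])) := by
    have h1 := (cm_cont.tendsto _).comp (tg.prodMk_nhds th)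
    refine h1.congr fun n => ?_
    rw [D_comm hD]
    rfl
  have cb : Tendsto (fun n => D ⁅g n, k n⁆) atTop (𝓝 (cm !![1, t; 0, 1] !![1, 0; -t, 1])) := by
    have h1 := (cm_cont.tendsto _).comp (tg.prodMk_nhds tk)
    refine h1.congr fun n => ?_
    rw [D_comm hD]
    rfl
  rw [cm_ul] at ca cb
  have tt : t * t ≤ 1 / 4 * (δ / 4) := mul_le_mul ht1 ht2 ht0.le (by norm_num)
  have tp : 0 < t * t := by positivity
  have t4 : t * t * t ≤ 1 / 4 * (t * t) := by nlinarith
  have t3 : 0 < t * t * t := by positivity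
  have t5 : 0 < t * t * t * t := by positivity
  have t6 : t * t * t * t ≤ 1 / 4 * (t * t) := by nlinarith
  have near : ∀ (f : ℕ → M2) (A : M2), Tendsto f atTop (𝓝 A) →
      (∀ i j, |A i j - (1 : M2) i j| < δ) →
      ∀ᶠ n in atTop, ∀ i j, |f n i j - (1 : M2) i j| < δ := by
    intro f A hf hA
    rw [eventually_all]
    intro i
    rw [eventually_all]
    intro j
    have h1 : Tendsto (fun n => |f n i j - (1 : M2) i j|) atTop (𝓝 |A i j - (1 : M2) i j|) := by
      have h2 : Continuous fun M : M2 => |M i j - (1 : M2) i j| := by fun_prop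
      exact (h2.tendsto A).comp hf
    exact h1.eventually_lt_const (hA i j)
  have ea := near _ _ ca (by
    intro i j
    fin_cases i <;> fin_cases j <;> simp [abs_of_pos ht0] <;>
      first | nlinarith | (rw [abs_lt]; constructor <;> nlinarith))
  have eb := near _ _ cb (by
    intro i j
    fin_cases i <;> fin_cases j <;> simp [abs_of_pos ht0] <;>
      first | nlinarith | (rw [abs_lt]; constructor <;> nlinarith))
  have etr : ∀ᶠ n in atTop, D ⁅g n, h n⁆ 0 0 + D ⁅g n, h n⁆ 1 1 ≠ 2 := by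
    have h2 : Continuous fun M : M2 => M 0 0 + M 1 1 := by fun_prop
    have h1 := (h2.tendsto _).comp ca
    refine h1.eventually_ne ?_
    simp
    nlinarith
  have enc : ∀ᶠ n in atTop, D ⁅g n, h n⁆ * D ⁅g n, k n⁆ - D ⁅g n, k n⁆ * D ⁅g n, h n⁆ ≠ 0 := by
    have h1 := (ca.mul cb).sub (cb.mul ca)
    refine h1.eventually_ne ?_
    intro h0
    have h2 := congrFun (congrFun h0 0) 0
    simp [Matrix.mul_apply, Fin.sum_univ_two] at h2
    nlinarith [mul_pos t3 t3]
  obtain ⟨n, h1, h2, h3, h4⟩ := (ea.and (eb.and (etr.and enc))).exists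
  exact ⟨g n, h n, k n, h1, h2, h3, fun h => h4 (sub_eq_zero.2 h)⟩

/-- characters are trivial on commutators -/
theorem com_char {M : Type} [CommMonoid M] (f : H →* M) {c : H} (hc : c ∈ commutator H) :
    f c = 1 := by
  have h : commutator H ≤ f.ker := by
    rw [commutator_def, Subgroup.commutator_le]
    intro g _ h _
    rw [MonoidHom.mem_ker, commutatorElement_def, map_mul, map_mul, map_mul, mul_right_comm (f g),
      ← map_mul, mul_inv_cancel, map_one, one_mul, ← map_mul, mul_inv_cancel, map_one]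
  exact h hc

/-- the determinant as a homomorphism -/
def dt (D : H →* M2) : H →* ℝ where
  toFun γ := (D γ).det
  map_one' := by rw [map_one, Matrix.det_one]
  map_mul' γ δ := by rw [map_mul, Matrix.det_mul]

theorem com_det (D : H →* M2) {c : H} (hc : c ∈ commutator H) : (D c).det = 1 :=
  com_char (dt D) hc

/-- wild groups are not commutative -/
theorem not_comm (hD : Wild D) : ∃ g h : H, D g * D h ≠ D h * D g := by
  by_contra hcon
  push Not at hcon
  have hs : ∀ γ, ∃ s : ℝ, D γ = s • (1 : M2) := by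
    intro γ
    obtain ⟨s, hs⟩ : ∃ s : ℝ, s = (D γ 0 0 + D γ 1 1) / 2 := ⟨_, rfl⟩
    refine ⟨s, sub_eq_zero.1 (no_semi hD (D γ - s • (1 : M2)) ?_ fun δ => ⟨1, ?_⟩)⟩
    · simp [hs]
      ring
    · rw [one_smul, mul_sub, sub_mul, hcon, mul_smul_comm, smul_mul_assoc, mul_one, one_mul]
  obtain ⟨γ, -, hγ⟩ := hD.line ⊤ inferInstance ![1, 0] (by
    intro h
    have := congrFun h 0
    simp at this)
  obtain ⟨s, hs⟩ := hs γ
  apply hγ s
  rw [hs, Matrix.smul_mulVec, Matrix.one_mulVec]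

/-- a commutator of trace different from two -/
theorem comm_tr (hD : Wild D) : ∃ c ∈ commutator H, D c 0 0 + D c 1 1 ≠ 2 := by
  by_contra hcon
  push Not at hcon
  have hent : ∀ c ∈ commutator H, (D c 1 1 = 2 - D c 0 0) ∧
      (D c 0 0 - 1) ^ 2 + D c 0 1 * D c 1 0 = 0 := by
    intro c hc
    have h1 := hcon c hc
    have h2 := com_det D hc
    rw [Matrix.det_fin_two] at h2
    have h3 : D c 1 1 = 2 - D c 0 0 := by linarith
    refine ⟨h3, ?_⟩
    rw [h3] at h2
    linarith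
  have hpar : ∀ c ∈ commutator H, D c - 1 ≠ 0 → ∀ c' ∈ commutator H,
      ∃ s : ℝ, D c' - 1 = s • (D c - 1) := by
    intro c hc hc0 c' hc'
    obtain ⟨a1, a2⟩ := hent c hc
    obtain ⟨b1, b2⟩ := hent c' hc'
    have h1 := hcon _ (mul_mem hc hc')
    rw [map_mul, mm, mm, a1, b1] at h1
    obtain ⟨p, hp⟩ : ∃ p, p = D c 0 0 - 1 := ⟨_, rfl⟩
    obtain ⟨q, hq⟩ : ∃ q, q = D c 0 1 := ⟨_, rfl⟩
    obtain ⟨r, hr⟩ : ∃ r, r = D c 1 0 := ⟨_, rfl⟩
    obtain ⟨p', hp'⟩ : ∃ p, p = D c' 0 0 - 1 := ⟨_, rfl⟩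
    obtain ⟨q', hq'⟩ : ∃ q, q = D c' 0 1 := ⟨_, rfl⟩
    obtain ⟨r', hr'⟩ : ∃ r, r = D c' 1 0 := ⟨_, rfl⟩
    have e0 : D c 0 0 = 1 + p := by rw [hp]; ring
    have e0' : D c' 0 0 = 1 + p' := by rw [hp']; ring
    rw [← hp, ← hq, ← hr] at a2
    rw [← hp', ← hq', ← hr'] at b2
    rw [e0, e0', ← hq, ← hr, ← hq', ← hr'] at h1
    have h2 : 2 * (p * p') + q * r' + r * q' = 0 := by linarith
    have z0 : q * r' - r * q' = 0 := by
      have : (q * r' - r * q') ^ 2 = 0 := by
        have h3 : q * r' + r * q' = -2 * (p * p') := by linarith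
        have h4 : (q * r' - r * q') ^ 2 = (q * r' + r * q') ^ 2 - 4 * (q * r) * (q' * r') := by ring
        have h5 : q * r = -p ^ 2 := by linarith
        have h6 : q' * r' = -p' ^ 2 := by linarith
        rw [h4, h3, h5, h6]
        ring
      exact pow_eq_zero_iff (by norm_num) |>.1 this
    have z1 : r * p' - p * r' = 0 := by
      have : (r * p' - p * r') ^ 2 = 0 := by
        have h5 : p ^ 2 = -(q * r) := by linarith
        have h6 : p' ^ 2 = -(q' * r') := by linarith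
        have h4 : (r * p' - p * r') ^ 2 = r ^ 2 * p' ^ 2 - 2 * (p * p') * (r * r') +
          p ^ 2 * r' ^ 2 := by ring
        rw [h4, h5, h6]
        have h7 : 2 * (p * p') = -(q * r') - r * q' := by linarith
        rw [h7]
        ring
      exact pow_eq_zero_iff (by norm_num) |>.1 this
    have z2 : p * q' - q * p' = 0 := by
      have : (p * q' - q * p') ^ 2 = 0 := by
        have h5 : p ^ 2 = -(q * r) := by linarith
        have h6 : p' ^ 2 = -(q' * r') := by linarith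
        have h4 : (p * q' - q * p') ^ 2 = p ^ 2 * q' ^ 2 - 2 * (p * p') * (q * q') +
          q ^ 2 * p' ^ 2 := by ring
        rw [h4, h5, h6]
        have h7 : 2 * (p * p') = -(q * r') - r * q' := by linarith
        rw [h7]
        ring
      exact pow_eq_zero_iff (by norm_num) |>.1 this
    refine trl_par (C := D c - 1) (C' := D c' - 1) ?_ ?_ hc0 ?_ ?_ ?_
    · simp [a1]; ring
    · simp [b1]; ring
    · simp [← hq, ← hr, ← hq', ← hr']; exact z0
    · simp [← hq, ← hr, ← hq', ← hr', e0, e0']; linarith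
    · simp [← hq, ← hr, ← hq', ← hr', e0, e0']; linarith
  obtain ⟨g, h, hgh⟩ := not_comm hD
  have hc : ⁅g, h⁆ ∈ commutator H := by
    rw [commutator_def]
    exact Subgroup.commutator_mem_commutator (Subgroup.mem_top g) (Subgroup.mem_top h)
  have hne : D ⁅g, h⁆ - 1 ≠ 0 := by
    intro h0
    apply hgh
    have h1 := sub_eq_zero.1 h0
    have h2 : ⁅g, h⁆ * (h * g) = g * h := by
      rw [commutatorElement_def]; group
    calc D g * D h = D (g * h) := (map_mul _ _ _).symm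
      _ = D (⁅g, h⁆ * (h * g)) := by rw [h2]
      _ = D h * D g := by rw [map_mul, h1, one_mul, map_mul]
  apply hne
  refine no_semi hD _ ?_ fun γ => ?_
  · obtain ⟨a1, -⟩ := hent _ hc
    simp [a1]; ring
  · obtain ⟨s, hs⟩ := hpar _ hc hne _ ((inferInstance : (commutator H).Normal).conj_mem _ hc γ)
    refine ⟨s, ?_⟩
    rw [map_mul, map_mul] at hs
    have h1 : D γ * D ⁅g, h⁆ * D γ⁻¹ - 1 = D γ * (D ⁅g, h⁆ - 1) * D γ⁻¹ := by
      rw [mul_sub, sub_mul, mul_one, D_inv]
    rw [h1] at hs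
    calc D γ * (D ⁅g, h⁆ - 1) = D γ * (D ⁅g, h⁆ - 1) * (D γ⁻¹ * D γ) := by rw [D_inv', mul_one]
      _ = D γ * (D ⁅g, h⁆ - 1) * D γ⁻¹ * D γ := by rw [mul_assoc, mul_assoc, mul_assoc]
      _ = _ := by rw [hs, smul_mul_assoc]

end Pool.Agent.Helper63.Rd
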