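import Pool.Agent.Helper63.Rd.Uni
import Pool.Agent.Helper63.Rd.Com

/-!
Project Rd (helper63): the normalised matrices of a discrete block triangular group are discrete.
-/

set_option autoImplicit false

open Set Filter Topology
open scoped Matrix commutatorElement Matrix.Norms.Operator

namespace Pool.Agent.Helper63.Rd

open Pool.Agent.Helper63.Mk

theorem ent_le (A : M4) (i j : Fin 4) : |A i j| ≤ ‖A‖ := by
  rw [Matrix.linfty_opNorm_def]
  have h1 : ‖A i j‖₊ ≤ ∑ j, ‖A i j‖₊ :=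
    Finset.single_le_sum (f := fun j => ‖A i j‖₊) (fun _ _ => zero_le) (Finset.mem_univ j)
  have h2 : (∑ j, ‖A i j‖₊) ≤ Finset.univ.sup fun i => ∑ j, ‖A i j‖₊ :=
    Finset.le_sup (f := fun i => ∑ j, ‖A i j‖₊) (Finset.mem_univ i)
  exact_mod_cast h1.trans h2

theorem norm_le' (A : M4) {c : ℝ} (hc : 0 ≤ c) (h : ∀ i j, |A i j| ≤ c) : ‖A‖ ≤ 4 * c := by
  have h2 : ∀ i, ((∑ j, ‖A i j‖₊ : NNReal) : ℝ) ≤ 4 * c := by
    intro i
    rw [NNReal.coe_sum]
    refine (Finset.sum_le_sum (g := fun _ => c) fun j _ => h i j).trans ?_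
    simp
  obtain ⟨C, hC⟩ : ∃ C : NNReal, (C : ℝ) = 4 * c := ⟨⟨4 * c, by positivity⟩, rfl⟩
  rw [Matrix.linfty_opNorm_def, ← hC, NNReal.coe_le_coe]
  refine Finset.sup_le fun i _ => ?_
  rw [← NNReal.coe_le_coe, hC]
  exact h2 i

section bet

variable {H : Type} [Group H] {R : H →* M4} {χ : H →* ℝ} {D : H →* M2}
  {w : Fin 4 → ℕ} {u : Fin 2 → Fin 4} {k : Fin 4}

/-- the rescaled representation -/
noncomputable def Rs (w : Fin 4 → ℕ) (R : H →* M4) (s : ℝ) (hs : s ≠ 0) : H →* M4 where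
  toFun γ := Matrix.diagonal (fun i => s ^ w i) * R γ * Matrix.diagonal (fun i => (s⁻¹) ^ w i)
  map_one' := by
    rw [map_one, mul_one, Matrix.diagonal_mul_diagonal, ← Matrix.diagonal_one]
    congr 1
    ext i
    rw [← mul_pow, mul_inv_cancel₀ hs, one_pow]
  map_mul' γ δ := by
    have h : Matrix.diagonal (fun i => (s⁻¹) ^ w i) * Matrix.diagonal (fun i => s ^ w i) =
        (1 : M4) := by
      rw [Matrix.diagonal_mul_diagonal, ← Matrix.diagonal_one]
      congr 1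
      ext i
      rw [← mul_pow, inv_mul_cancel₀ hs, one_pow]
    calc _ = Matrix.diagonal (fun i => s ^ w i) * R γ * 1 * R δ *
          Matrix.diagonal (fun i => (s⁻¹) ^ w i) := by rw [map_mul, mul_one]; simp only [mul_assoc]
      _ = _ := by rw [← h]; simp only [mul_assoc]

theorem Rs_apply (s : ℝ) (hs : s ≠ 0) (γ : H) (i j : Fin 4) :
    Rs w R s hs γ i j = s ^ w i * R γ i j * (s⁻¹) ^ w j := by
  show (Matrix.diagonal (fun i => s ^ w i) * R γ * Matrix.diagonal (fun i => (s⁻¹) ^ w i)) i j = _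
  rw [Matrix.mul_diagonal, Matrix.diagonal_mul]

theorem Rs_same (s : ℝ) (hs : s ≠ 0) (γ : H) {i j : Fin 4} (h : w i = w j) :
    Rs w R s hs γ i j = R γ i j := by
  rw [Rs_apply, h, mul_right_comm, ← mul_pow, mul_inv_cancel₀ hs, one_pow, one_mul]

theorem wu (hw : Cs w u k) (i j : Fin 2) : w (u i) = w (u j) := by
  rcases hw with ⟨rfl, rfl, rfl⟩ | ⟨rfl, rfl, rfl⟩ <;> fin_cases i <;> fin_cases j <;>
    simp [wL, wP]

theorem one_u (hw : Cs w u k) (i j : Fin 2) : (1 : M4) (u i) (u j) = (1 : M2) i j := by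
  rcases hw with ⟨rfl, rfl, rfl⟩ | ⟨rfl, rfl, rfl⟩ <;> fin_cases i <;> fin_cases j <;>
    simp [Matrix.one_apply]

/-- the entries within the blocks -/
theorem same_ent (hw : Cs w u k) (B : Bl w u k R χ D) {γ : H} (hχ : χ γ = 1) {δ : ℝ} (hδ : 0 < δ)
    (hD : ∀ i j, |D γ i j - (1 : M2) i j| < δ) {i j : Fin 4} (hij : w i = w j) :
    |R γ i j - (1 : M4) i j| ≤ δ := by
  have d00 := hD 0 0
  have d01 := hD 0 1
  have d10 := hD 1 0
  have d11 := hD 1 1
  simp at d00 d01 d10 d11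
  rcases hw with ⟨rfl, rfl, rfl⟩ | ⟨rfl, rfl, rfl⟩
  · obtain ⟨a10, a20, a30, a31, a32, a00, a11, a12, a21, a22, a33⟩ := shL B γ
    rw [hχ] at a00
    fin_cases i <;> fin_cases j <;> simp [wL] at hij <;> simp [*] <;>
      first | exact hδ.le | exact d00.le | exact d01.le | exact d10.le | exact d11.le
  · obtain ⟨a20, a21, a30, a31, a32, a22, a00, a01, a10, a11, a33⟩ := shP B γ
    rw [hχ] at a22
    fin_cases i <;> fin_cases j <;> simp [wP] at hij <;> simp [*] <;>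
      first | exact hδ.le | exact d00.le | exact d01.le | exact d10.le | exact d11.le

theorem scale (hw : Cs w u k) (B : Bl w u k R χ D) {γ : H} (hχ : χ γ = 1) {δ : ℝ} (hδ : 0 < δ)
    (hD : ∀ i j, |D γ i j - (1 : M2) i j| < δ) : ∃ s0 : ℝ, 0 < s0 ∧ ∀ s (hs : s ≠ 0), 0 < s →
      s ≤ s0 → ∀ i j, |Rs w R s hs γ i j - (1 : M4) i j| ≤ δ := by
  refine ⟨min 1 (δ / (‖R γ‖ + 1)), by positivity, fun s hs hs0 hs1 i j => ?_⟩
  have hsa : s ≤ 1 := hs1.trans (min_le_left _ _)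
  have hsb : s * (‖R γ‖ + 1) ≤ δ := by
    rw [← le_div_iff₀ (by positivity)]
    exact hs1.trans (min_le_right _ _)
  rcases lt_trichotomy (w i) (w j) with h | h | h
  · have hne : i ≠ j := by rintro rfl; omega
    rw [Rs_apply, B.tri γ i j h, mul_zero, zero_mul, Matrix.one_apply_ne hne, sub_zero, abs_zero]
    exact hδ.le
  · rw [Rs_same s hs γ h]
    exact same_ent hw B hχ hδ hD h
  · have hne : i ≠ j := by rintro rfl; omega
    rw [Rs_apply, Matrix.one_apply_ne hne, sub_zero]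
    obtain ⟨m, hm⟩ : ∃ m, w i = w j + (m + 1) := ⟨w i - w j - 1, by omega⟩
    have e : s ^ w i * R γ i j * (s⁻¹) ^ w j = s ^ m * s * R γ i j := by
      rw [hm, pow_add, pow_succ]
      have : s ^ w j * s⁻¹ ^ w j = 1 := by rw [← mul_pow, mul_inv_cancel₀ hs, one_pow]
      calc _ = (s ^ w j * s⁻¹ ^ w j) * (s ^ m * s * R γ i j) := by ring
        _ = _ := by rw [this, one_mul]
    rw [e, abs_mul, abs_mul, abs_of_pos hs0, abs_pow, abs_of_pos hs0]
    have h1 := ent_le (R γ) i j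
    have h2 : s ^ m ≤ 1 := pow_le_one₀ hs0.le hsa
    have h3 := abs_nonneg (R γ i j)
    calc s ^ m * s * |R γ i j| ≤ 1 * s * ‖R γ‖ := by gcongr
      _ ≤ δ := by nlinarith [norm_nonneg (R γ)]

/-- **Discreteness of the normalised matrices.** -/
theorem disc_D (hw : Cs w u k) (B : Bl w u k R χ D) (hW : Wild (Dh χ D B.pos))
    (hd : ∃ ε : ℝ, 0 < ε ∧ ∀ γ, (∀ i j, |R γ i j - (1 : M4) i j| < ε) → R γ = 1) :
    ∃ ε : ℝ, 0 < ε ∧ ∀ γ, ‖rl (Dh χ D B.pos) γ - 1‖ < ε → Dh χ D B.pos γ = 1 := by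
  by_contra hcon
  push Not at hcon
  obtain ⟨g, h, l, ha, hb, htr, hnc⟩ := comm_pair hW (fun ε hε => by
    obtain ⟨γ, h1, h2⟩ := hcon ε hε
    exact ⟨γ, fun h => h2 (rl_one h), h1⟩) (1 / 128) (by norm_num)
  have hcm : ∀ x y : H, ⁅x, y⁆ ∈ commutator H := fun x y => by
    rw [commutator_def]
    exact Subgroup.commutator_mem_commutator (Subgroup.mem_top x) (Subgroup.mem_top y)
  obtain ⟨a, hadef⟩ : ∃ a, a = ⁅g, h⁆ := ⟨_, rfl⟩
  obtain ⟨b, hbdef⟩ : ∃ b, b = ⁅g, l⁆ := ⟨_, rfl⟩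
  have hac : a ∈ commutator H := by rw [hadef]; exact hcm _ _
  have hbc : b ∈ commutator H := by rw [hbdef]; exact hcm _ _
  have hχ : ∀ c ∈ commutator H, χ c = 1 := fun c hc => com_char χ hc
  have hDh : ∀ c ∈ commutator H, Dh χ D B.pos c = D c := fun c hc => Dh_eq B.pos (hχ c hc)
  rw [← hadef, hDh a hac] at ha htr hnc
  rw [← hbdef, hDh b hbc] at hb hnc
  have hdet : ∀ c ∈ commutator H, |(D c).det| = 1 := by
    intro c hc
    have := B.det c
    rwa [hχ c hc, mul_one] at this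
  -- scaling
  obtain ⟨s1, hs1, ks1⟩ := scale hw B (hχ a hac) (by norm_num : (0 : ℝ) < 1 / 128) ha
  obtain ⟨s2, hs2, ks2⟩ := scale hw B (hχ b hbc) (by norm_num : (0 : ℝ) < 1 / 128) hb
  obtain ⟨s, hs0, hsa, hsb, hsc⟩ : ∃ s : ℝ, 0 < s ∧ s ≤ s1 ∧ s ≤ s2 ∧ s ≤ 1 :=
    ⟨min (min s1 s2) 1, by positivity, (min_le_left _ _).trans (min_le_left _ _),
      (min_le_left _ _).trans (min_le_right _ _), min_le_right _ _⟩
  have hsn : s ≠ 0 := hs0.ne'
  obtain ⟨Q, hQ⟩ : ∃ Q, Q = Rs w R s hsn := ⟨_, rfl⟩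
  have na : ‖Q a - 1‖ ≤ 1 / 32 := by
    rw [hQ]
    refine (norm_le' _ (by norm_num) (ks1 s hsn hs0 hsa)).trans (by norm_num)
  have nb : ‖Q b - 1‖ ≤ 1 / 32 := by
    rw [hQ]
    refine (norm_le' _ (by norm_num) (ks2 s hsn hs0 hsb)).trans (by norm_num)
  have h1n : ‖(1 : M4)‖ ≤ 1 := by
    rw [Matrix.linfty_opNorm_def]
    have : (Finset.univ.sup fun i => ∑ j, ‖(1 : M4) i j‖₊) ≤ 1 := by
      refine Finset.sup_le fun i _ => ?_
      fin_cases i <;> simp [Fin.sum_univ_four, Matrix.one_apply]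
    exact_mod_cast this
  -- iterated commutators
  let c : ℕ → H := fun n => Nat.rec b (fun _ x => a * x * a⁻¹ * x⁻¹) n
  have c0 : c 0 = b := rfl
  have cs : ∀ n, c (n + 1) = a * c n * a⁻¹ * (c n)⁻¹ := fun n => rfl
  have hcc : ∀ n, c n ∈ commutator H := by
    intro n
    induction n with
    | zero => exact hbc
    | succ n ih =>
      rw [cs]
      exact mul_mem (mul_mem (mul_mem hac ih) (inv_mem hac)) (inv_mem ih)
  have hcn : ∀ n, ‖Q (c n) - 1‖ ≤ 1 / 32 * (1 / 2) ^ n := by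
    intro n
    induction n with
    | zero => rw [c0]; simpa using nb
    | succ n ih =>
      have hp : (1 / 2 : ℝ) ^ n ≤ 1 := pow_le_one₀ (by norm_num) (by norm_num)
      have h1 := comm_est h1n Q (s := a) (c := c n) (by linarith) (by linarith)
      rw [cs]
      refine h1.trans ?_
      rw [pow_succ]
      have h2 : 8 * ‖Q a - 1‖ ≤ 1 / 2 := by linarith
      calc 8 * ‖Q a - 1‖ * ‖Q (c n) - 1‖ ≤ 1 / 2 * ‖Q (c n) - 1‖ :=
            mul_le_mul_of_nonneg_right h2 (norm_nonneg _)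
        _ ≤ 1 / 2 * (1 / 32 * (1 / 2) ^ n) := by linarith
        _ = _ := by ring
  -- entries
  have hent : ∀ γ, ‖Q γ - 1‖ ≤ 1 / 32 → ∀ i j, |D γ i j - (1 : M2) i j| ≤ 1 / 8 := by
    intro γ hγ i j
    have h1 := ent_le (Q γ - 1) (u i) (u j)
    have h2 : (Q γ - 1) (u i) (u j) = D γ i j - (1 : M2) i j := by
      rw [Matrix.sub_apply, hQ, Rs_same s hsn γ (wu hw i j), B.blk, one_u hw]
    rw [h2] at h1
    linarith
  obtain ⟨had, hapos⟩ := near_one (hent a na) (hdet a hac)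
  -- the elements do not commute
  have hnot : ∀ n, D a * D (c n) ≠ D (c n) * D a := by
    intro n
    induction n with
    | zero => exact hnc
    | succ n ih =>
      intro h1
      apply ih
      have hp : (1 / 2 : ℝ) ^ n ≤ 1 := pow_le_one₀ (by norm_num) (by norm_num)
      obtain ⟨-, hpos⟩ := near_one (hent (c n) ((hcn n).trans (by linarith))) (hdet _ (hcc n))
      refine (conj_comm (X := D a) (Y := D (c n)) (Y' := D (c n)⁻¹) (D_inv D _) (D_inv' D _)
        ?_ hpos.ne' ?_).symm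
      · rw [had]
        intro h5
        apply htr
        nlinarith
      · -- `P = Y X⁻¹ Y⁻¹` commutes with `X`
        have h2 : D (a * (c n * a⁻¹ * (c n)⁻¹)) = D ((c n * a⁻¹ * (c n)⁻¹) * a) := by
          have h3 : D (a * (a * (c n * a⁻¹ * (c n)⁻¹))) = D (a * ((c n * a⁻¹ * (c n)⁻¹) * a)) := by
            have e1 : a * (a * (c n * a⁻¹ * (c n)⁻¹)) = a * c (n + 1) := by rw [cs]; group
            have e2 : a * ((c n * a⁻¹ * (c n)⁻¹) * a) = c (n + 1) * a := by rw [cs]; group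
            rw [e1, e2, map_mul D a, map_mul D (c (n + 1)), h1]
          have h4 := congrArg (fun M => D a⁻¹ * M) h3
          simp only [← map_mul] at h4
          have e3 : ∀ x : H, a⁻¹ * (a * x) = x := fun x => by group
          rwa [e3, e3] at h4
        have h5 : D (c n * a * (c n)⁻¹ * (a * (c n * a⁻¹ * (c n)⁻¹)) * (c n * a * (c n)⁻¹)) =
            D (c n * a * (c n)⁻¹ * ((c n * a⁻¹ * (c n)⁻¹) * a) * (c n * a * (c n)⁻¹)) := by
          rw [map_mul, map_mul, h2, ← map_mul, ← map_mul]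
        have e4 : c n * a * (c n)⁻¹ * (a * (c n * a⁻¹ * (c n)⁻¹)) * (c n * a * (c n)⁻¹) =
            (c n * a * (c n)⁻¹) * a := by group
        have e5 : c n * a * (c n)⁻¹ * ((c n * a⁻¹ * (c n)⁻¹) * a) * (c n * a * (c n)⁻¹) =
            a * (c n * a * (c n)⁻¹) := by group
        rw [e4, e5] at h5
        simp only [map_mul] at h5
        exact h5.symm
  -- discreteness
  obtain ⟨ε, hε, hd⟩ := hd
  obtain ⟨n, hn⟩ := exists_pow_lt_of_lt_one (show 0 < ε * s ^ 2 by positivity)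
    (show (1 / 2 : ℝ) < 1 by norm_num)
  have h1 : R (c n) = 1 := by
    apply hd
    intro i j
    have h2 : |Q (c n) i j - (1 : M4) i j| ≤ 1 / 32 * (1 / 2) ^ n :=
      (ent_le (Q (c n) - 1) i j).trans (hcn n)
    have h3 : R (c n) i j - (1 : M4) i j = (s⁻¹) ^ w i * s ^ w j *
        (Q (c n) i j - (1 : M4) i j) := by
      have h4 : s⁻¹ ^ w i * s ^ w i = 1 := by rw [← mul_pow, inv_mul_cancel₀ hsn, one_pow]
      have h5 : s⁻¹ ^ w j * s ^ w j = 1 := by rw [← mul_pow, inv_mul_cancel₀ hsn, one_pow]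
      rw [mul_sub, hQ, Rs_apply]
      congr 1
      · calc R (c n) i j = (s⁻¹ ^ w i * s ^ w i) * (s⁻¹ ^ w j * s ^ w j) * R (c n) i j := by
              rw [h4, h5, one_mul, one_mul]
          _ = _ := by ring
      · by_cases hij : i = j
        · rw [hij, Matrix.one_apply_eq, h5, mul_one]
        · rw [Matrix.one_apply_ne hij, mul_zero]
    rw [h3, abs_mul, abs_mul, abs_pow, abs_pow, abs_inv, abs_of_pos hs0]
    have h6 : s ^ w j ≤ 1 := pow_le_one₀ hs0.le hsc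
    have h7 : s⁻¹ ^ w i ≤ s⁻¹ ^ 2 := pow_le_pow_right₀ ((one_le_inv₀ hs0).2 hsc) (hw.le i)
    have h8 : (0 : ℝ) < (1 / 2) ^ n := by positivity
    calc s⁻¹ ^ w i * s ^ w j * |Q (c n) i j - (1 : M4) i j|
        ≤ s⁻¹ ^ 2 * 1 * (1 / 32 * (1 / 2) ^ n) := by gcongr
      _ < ε := by
          have h9 : s⁻¹ ^ 2 * (s ^ 2) = 1 := by rw [← mul_pow, inv_mul_cancel₀ hsn, one_pow]
          have h10 : s⁻¹ ^ 2 * (1 / 2) ^ n < s⁻¹ ^ 2 * (ε * s ^ 2) := by
            gcongr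
          have h11 : s⁻¹ ^ 2 * (ε * s ^ 2) = ε := by
            calc _ = ε * (s⁻¹ ^ 2 * s ^ 2) := by ring
              _ = ε := by rw [h9, mul_one]
          have h12 : 0 < s⁻¹ ^ 2 * (1 / 2 : ℝ) ^ n := by positivity
          nlinarith
  apply hnot n
  have h2 : D (c n) = 1 := by
    ext i j
    rw [← B.blk, h1, one_u hw]
  rw [h2, mul_one, one_mul]

end bet

end Pool.Agent.Helper63.Rd
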