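import Pool.Agent.Helper63.Rd.Geo
import Pool.Agent.Helper63.Ce.Pln
import Pool.Graph.R_pool_sql_team_seeded_63374d34.Results.MP_df2bd8_gt.QuasiConformalFlags
import Pool.Graph.R_pool_sql_team_seeded_63374d34.Results.MP_df2bd8_gt.RankOneSubspaces

/-!
Project Rd (helper63): the cases in which the linear holonomy is solvable, bounded or unimodular.
-/

set_option autoImplicit false

open Set Filter Topology
open scoped Matrix commutatorElement

namespace Pool.Agent.Helper63.Rd

open Pool.Agent.Helper63.Mk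
open Pool.Agent.Helper63.Ce (comm_one line_ders solv_map)
open Pool.Agent.W689.Mk (AffData)

section homs

variable {H : Type} [Group H] {R : H →* M4} {w : Fin 4 → ℕ} {u : Fin 2 → Fin 4} {k : Fin 4}

/-- the character -/
def chiH (hw : Cs w u k) (ht : ∀ γ i j, w i < w j → R γ i j = 0) : H →* ℝ where
  toFun γ := R γ k k
  map_one' := by rw [map_one, Matrix.one_apply_eq]
  map_mul' γ δ := by
    rw [map_mul, Matrix.mul_apply, Fin.sum_univ_four]
    rcases hw with ⟨rfl, rfl, rfl⟩ | ⟨rfl, rfl, rfl⟩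
    · rw [ht δ 1 0 (by simp [wL]), ht δ 2 0 (by simp [wL]), ht δ 3 0 (by simp [wL])]
      ring
    · rw [ht γ 2 0 (by simp [wP]), ht γ 2 1 (by simp [wP]), ht δ 3 2 (by simp [wP])]
      ring

/-- the matrices of size two -/
def DH (hw : Cs w u k) (ht : ∀ γ i j, w i < w j → R γ i j = 0) : H →* M2 where
  toFun γ := Matrix.of fun i j => R γ (u i) (u j)
  map_one' := by
    ext i j
    rw [Matrix.of_apply, map_one, one_u hw]
  map_mul' γ δ := by
    apply m2ext
    all_goals
      rw [mm]
      simp only [Matrix.of_apply]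
      rw [map_mul, Matrix.mul_apply, Fin.sum_univ_four]
      rcases hw with ⟨rfl, rfl, rfl⟩ | ⟨rfl, rfl, rfl⟩
      · simp [ht γ 1 0 (by simp [wL]), ht γ 2 0 (by simp [wL]), ht δ 3 1 (by simp [wL]),
          ht δ 3 2 (by simp [wL])]
      · simp [ht δ 2 0 (by simp [wP]), ht δ 2 1 (by simp [wP]), ht δ 3 0 (by simp [wP]),
          ht δ 3 1 (by simp [wP])]

theorem chiH_apply (hw : Cs w u k) (ht : ∀ γ i j, w i < w j → R γ i j = 0) (γ : H) :
    chiH hw ht γ = R γ k k := rfl

theorem DH_apply (hw : Cs w u k) (ht : ∀ γ i j, w i < w j → R γ i j = 0) (γ : H) (i j : Fin 2) :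
    DH hw ht γ i j = R γ (u i) (u j) := rfl

theorem mkBl (hw : Cs w u k) (ht : ∀ γ i j, w i < w j → R γ i j = 0) (h33 : ∀ γ, R γ 3 3 = 1)
    (hpos : ∀ γ, 0 < R γ k k)
    (hdet : ∀ γ, |Matrix.det (Matrix.of fun i j : Fin 3 => R γ i.castSucc j.castSucc)| = 1) :
    Bl w u k R (chiH hw ht) (DH hw ht) where
  tri := ht
  blk := fun _ _ _ => rfl
  chr := fun _ => rfl
  one := h33
  pos := hpos
  det := by
    intro γ
    have h1 := hdet γ
    rw [Matrix.det_fin_three] at h1
    simp only [Matrix.of_apply] at h1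
    rw [chiH_apply, Matrix.det_fin_two, DH_apply, DH_apply, DH_apply, DH_apply]
    rw [← h1, ← abs_of_pos (hpos γ), ← abs_mul]
    congr 1
    rcases hw with ⟨rfl, rfl, rfl⟩ | ⟨rfl, rfl, rfl⟩
    · have e1 : R γ (Fin.castSucc (1 : Fin 3)) (Fin.castSucc (0 : Fin 3)) = 0 :=
        ht γ 1 0 (by simp [wL])
      have e2 : R γ (Fin.castSucc (2 : Fin 3)) (Fin.castSucc (0 : Fin 3)) = 0 :=
        ht γ 2 0 (by simp [wL])
      rw [e1, e2]
      show (R γ 1 1 * R γ 2 2 - R γ 1 2 * R γ 2 1) * R γ 0 0 =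
        R γ 0 0 * R γ 1 1 * R γ 2 2 - R γ 0 0 * R γ 1 2 * R γ 2 1 - R γ 0 1 * 0 * R γ 2 2 +
          R γ 0 1 * R γ 1 2 * 0 + R γ 0 2 * 0 * R γ 2 1 - R γ 0 2 * R γ 1 1 * 0
      ring
    · have e1 : R γ (Fin.castSucc (2 : Fin 3)) (Fin.castSucc (0 : Fin 3)) = 0 :=
        ht γ 2 0 (by simp [wP])
      have e2 : R γ (Fin.castSucc (2 : Fin 3)) (Fin.castSucc (1 : Fin 3)) = 0 :=
        ht γ 2 1 (by simp [wP])
      rw [e1, e2]
      show (R γ 0 0 * R γ 1 1 - R γ 0 1 * R γ 1 0) * R γ 2 2 =
        R γ 0 0 * R γ 1 1 * R γ 2 2 - R γ 0 0 * R γ 1 2 * 0 - R γ 0 1 * R γ 1 0 * R γ 2 2 +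
          R γ 0 1 * R γ 1 2 * 0 + R γ 0 2 * R γ 1 0 * 0 - R γ 0 2 * R γ 1 1 * 0
      ring

end homs

section geo

variable {X E H : Type} [NormedAddCommGroup E] [NormedSpace ℝ E] [FiniteDimensional ℝ E]
  [Group H] {hol : H →* (E ≃ᵃ[ℝ] E)} {b : Module.Basis (Fin 3) ℝ E}
  {w : Fin 4 → ℕ} {u : Fin 2 → Fin 4} {k : Fin 4}

/-- coordinates of the linear parts -/
theorem repr_lin (γ : H) (v : E) (i : Fin 3) : b.repr ((hol γ).linear v) i =
    ∑ j : Fin 3, R4 b hol γ i.castSucc j.castSucc * b.repr v j := by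
  conv_lhs => rw [← b.sum_repr v]
  rw [map_sum, map_sum, Finset.sum_apply']
  refine Finset.sum_congr rfl fun j _ => ?_
  rw [R4_lin, map_smul, map_smul, Finsupp.smul_apply, smul_eq_mul, mul_comm]

/-- the middle term of the flag -/
def S1 (b : Module.Basis (Fin 3) ℝ E) (w : Fin 4 → ℕ) : Submodule ℝ E where
  carrier := {v | ∀ i : Fin 3, w i.castSucc = 1 → b.repr v i = 0}
  zero_mem' := by intro i _; simp
  add_mem' := by
    intro x y hx hy i hi
    rw [map_add, Finsupp.add_apply, hx i hi, hy i hi, add_zero]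
  smul_mem' := by
    intro c x hx i hi
    rw [map_smul, Finsupp.smul_apply, hx i hi, smul_zero]

theorem mem_S1 (v : E) : v ∈ S1 b w ↔ ∀ i : Fin 3, w i.castSucc = 1 → b.repr v i = 0 := Iff.rfl

theorem w_cases (hw : Cs w u k) (i : Fin 3) : w i.castSucc = 1 ∨ w i.castSucc = 2 := by
  rcases hw with ⟨rfl, rfl, rfl⟩ | ⟨rfl, rfl, rfl⟩ <;> fin_cases i <;> simp [wL, wP]

/-- strictly triangular elements -/
theorem su_lin (hw : Cs w u k) {g : H} (hg : SU w (R4 b hol g - 1)) :
    (∀ v, (hol g).linear v - v ∈ S1 b w) ∧ ∀ v ∈ S1 b w, (hol g).linear v = v := by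
  have h0 : ∀ (v : E) (i : Fin 3), b.repr ((hol g).linear v) i = b.repr v i +
      ∑ j : Fin 3, (R4 b hol g - 1) i.castSucc j.castSucc * b.repr v j := by
    intro v i
    rw [repr_lin]
    have : ∀ j : Fin 3, (R4 b hol g - 1) i.castSucc j.castSucc * b.repr v j =
        R4 b hol g i.castSucc j.castSucc * b.repr v j -
          (if i = j then b.repr v j else 0) := by
      intro j
      rw [Matrix.sub_apply, sub_mul, Matrix.one_apply]
      congr 1
      by_cases hij : i = j
      · simp [hij]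
      · have : i.castSucc ≠ j.castSucc := fun h => hij (Fin.castSucc_injective 3 h)
        simp [hij]
    rw [Finset.sum_congr rfl fun j _ => this j, Finset.sum_sub_distrib, Finset.sum_ite_eq]
    simp
  constructor
  · intro v i hi
    rw [map_sub, Finsupp.sub_apply, h0, add_sub_cancel_left]
    refine Finset.sum_eq_zero fun j _ => ?_
    have : w i.castSucc ≤ w j.castSucc := by
      rcases w_cases hw j with h | h <;> omega
    rw [hg _ _ this, zero_mul]
  · intro v hv
    apply b.repr.injective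
    ext i
    rw [h0, add_eq_left]
    refine Finset.sum_eq_zero fun j _ => ?_
    rcases w_cases hw j with h | h
    · rw [hv j h, mul_zero]
    · have : w i.castSucc ≤ w j.castSucc := by
        rcases w_cases hw i with h' | h' <;> omega
      rw [hg _ _ this, zero_mul]

variable [TopologicalSpace X] [T2Space X] [SecondCountableTopology X] [ConnectedSpace X]
  [MulAction H X] {dev : X → E}

/-- the matrices of size two preserve a line: the linear holonomy is solvable -/
theorem case_line (A : AffData X H E dev hol) (hinj : Function.Injective dev) (hw : Cs w u k)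
    {χ : H →* ℝ} {D : H →* M2} (B : Bl w u k (R4 b hol) χ D) (K : Subgroup H)
    (hK : K.FiniteIndex) (v : V2) (hv : v ≠ 0) (hKv : ∀ γ ∈ K, ∃ c : ℝ, D γ *ᵥ v = c • v) :
    IsHomeomorph dev := by
  have h1 := line_ders (D.comp K.subtype) hv (fun γ => hKv γ γ.2)
  have h2 : ∀ γ ∈ derivedSeries K 2, χ γ = 1 := by
    have : derivedSeries K 1 ≤ (χ.comp K.subtype).ker := by
      rw [derivedSeries_succ, Subgroup.commutator_le]
      intro g _ h _
      exact comm_one _ (mul_comm _ _)
    intro γ hγ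
    exact this (derivedSeries_antitone K (by norm_num) hγ)
  have h3 : ∀ γ ∈ derivedSeries K 2, SU w (R4 b hol γ - 1) := fun γ hγ =>
    su_of hw B (h1 γ hγ) (h2 γ hγ)
  have h4 : derivedSeries K 3 ≤ (AffineEquiv.linearHom.comp (hol.comp K.subtype)).ker := by
    rw [derivedSeries_succ, Subgroup.commutator_le]
    intro g hg h hh
    refine comm_one _ ?_
    apply LinearEquiv.ext
    intro v
    obtain ⟨a1, a2⟩ := su_lin hw (h3 g hg)
    obtain ⟨b1, b2⟩ := su_lin hw (h3 h hh)
    show (hol g).linear ((hol h).linear v) = (hol h).linear ((hol g).linear v)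
    have e1 : (hol g).linear ((hol h).linear v) = (hol g).linear v + ((hol h).linear v - v) := by
      have := a2 _ (b1 v)
      rw [map_sub] at this
      rw [← this]
      abel
    have e2 : (hol h).linear ((hol g).linear v) = (hol h).linear v + ((hol g).linear v - v) := by
      have := b2 _ (a1 v)
      rw [map_sub] at this
      rw [← this]
      abel
    rw [e1, e2]
    abel
  exact Pool.Agent.Results.MP_df2bd8_gt.SolvableGroups.result E X K dev (hol.comp K.subtype)
    (Pool.Agent.Y449.MK.restrict A K hK) hinj ⊤ inferInstance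
    (solv_map _ 3 fun γ hγ => h4 hγ)

/-- the unimodular case -/
theorem case_one (A : AffData X H E dev hol) (hinj : Function.Injective dev) (hw : Cs w u k)
    {χ : H →* ℝ} {D : H →* M2} (B : Bl w u k (R4 b hol) χ D) (hχ : ∀ γ, χ γ = 1) :
    IsHomeomorph dev := by
  rcases hw with ⟨rfl, rfl, rfl⟩ | ⟨rfl, rfl, rfl⟩
  · refine pvf A hinj ⊤ inferInstance (Submodule.span ℝ {b 0}) ?_ ?_
    · intro γ _ v hv
      obtain ⟨c, rfl⟩ := Submodule.mem_span_singleton.1 hv
      rw [map_smul]
      congr 1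
      apply b.repr.injective
      ext i
      rw [← R4_lin γ i 0, b.repr_self]
      obtain ⟨a10, a20, a30, a31, a32, a00, a11, a12, a21, a22, a33⟩ := shL B γ
      rw [hχ γ] at a00
      fin_cases i
      · exact a00.trans (by simp)
      · exact a10.trans (by simp)
      · exact a20.trans (by simp)
    · rw [finrank_span_singleton (b.ne_zero 0), Module.finrank_eq_card_basis b, Fintype.card_fin]
  · refine Pool.Agent.Results.MP_df2bd8_gt.RankOneSubspaces.result.1 E X H dev hol A hinj ⊤
      inferInstance (LinearMap.ker (b.coord 2)) (Or.inr ⟨?_, ?_⟩)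
    · have h1 := LinearMap.finrank_range_add_finrank_ker (b.coord 2)
      have h2 : LinearMap.range (b.coord 2) = ⊤ := by
        rw [LinearMap.range_eq_top]
        intro c
        exact ⟨c • b 2, by simp⟩
      rw [h2, finrank_top, Module.finrank_self, Module.finrank_eq_card_basis b,
        Fintype.card_fin] at h1
      omega
    · intro γ _ v
      rw [LinearMap.mem_ker, map_sub]
      show b.repr ((hol γ).linear v) 2 - b.repr v 2 = 0
      rw [repr_lin, Fin.sum_univ_three]
      obtain ⟨a20, a21, a30, a31, a32, a22, a00, a01, a10, a11, a33⟩ := shP B γ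
      rw [hχ γ] at a22
      have e0 : R4 b hol γ (Fin.castSucc (2 : Fin 3)) (Fin.castSucc (0 : Fin 3)) = 0 := a20
      have e1 : R4 b hol γ (Fin.castSucc (2 : Fin 3)) (Fin.castSucc (1 : Fin 3)) = 0 := a21
      have e2 : R4 b hol γ (Fin.castSucc (2 : Fin 3)) (Fin.castSucc (2 : Fin 3)) = 1 := a22
      rw [e0, e1, e2]
      ring

end geo

end Pool.Agent.Helper63.Rd
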