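import Pool.Agent.Helper63.Mk.Eq2
import Pool.Agent.Helper63.Ce.Blk

/-!
# Closed affine three-manifolds with reducible linear holonomy: definitions

The affine holonomy is given by matrices of size four. In the *line case* the basis vector `0` spans
an invariant line with the character `χ`, and `1, 2` span the plane quotient with the matrices `D`.
In the *plane case* the vectors `0, 1` span an invariant plane with the matrices `D`, and the vector
`2` spans the quotient with the character `χ`. The vector `3` is the affine coordinate.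
-/

set_option autoImplicit false

open Set Filter Topology
open scoped Matrix

namespace Pool.Agent.Helper63.Rd

open Pool.Agent.Helper63.Mk (V2 M2 Wild)

abbrev M4 := Matrix (Fin 4) (Fin 4) ℝ

/-- weights of the line case -/
def wL : Fin 4 → ℕ := ![2, 1, 1, 0]

/-- weights of the plane case -/
def wP : Fin 4 → ℕ := ![2, 2, 1, 0]

/-- the entries which vanish are those with `w i < w j` -/
structure Bl {H : Type} [Group H] (w : Fin 4 → ℕ) (u : Fin 2 → Fin 4) (k : Fin 4) (R : H →* M4)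
    (χ : H →* ℝ) (D : H →* M2) : Prop where
  tri : ∀ γ i j, w i < w j → R γ i j = 0
  blk : ∀ γ i j, R γ (u i) (u j) = D γ i j
  chr : ∀ γ, R γ k k = χ γ
  one : ∀ γ, R γ 3 3 = 1
  pos : ∀ γ, 0 < χ γ
  det : ∀ γ, |(D γ).det| * χ γ = 1

/-- line case: `R γ = [[χ, *, *, *], [0, D00, D01, *], [0, D10, D11, *], [0, 0, 0, 1]]` -/
abbrev BlL {H : Type} [Group H] (R : H →* M4) (χ : H →* ℝ) (D : H →* M2) : Prop :=
  Bl wL ![1, 2] 0 R χ D

/-- plane case: `R γ = [[D00, D01, *, *], [D10, D11, *, *], [0, 0, χ, *], [0, 0, 0, 1]]` -/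
abbrev BlP {H : Type} [Group H] (R : H →* M4) (χ : H →* ℝ) (D : H →* M2) : Prop :=
  Bl wP ![0, 1] 2 R χ D

/-- strictly block triangular matrices -/
def SU (w : Fin 4 → ℕ) (M : M4) : Prop := ∀ i j, w i ≤ w j → M i j = 0

/-- a discrete invariant commuting additive group of strictly triangular matrices -/
structure La {H : Type} [Group H] (w : Fin 4 → ℕ) (R : H →* M4) (L : AddSubgroup M4) : Prop where
  su : ∀ x ∈ L, SU w x
  comm : ∀ x ∈ L, ∀ y ∈ L, x * y = y * x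
  inv : ∀ γ, ∀ x ∈ L, R γ * x * R γ⁻¹ ∈ L
  disc : ∃ δ : ℝ, 0 < δ ∧ ∀ x ∈ L, (∀ i j, |x i j| < δ) → x = 0

/-- irreducibility and the elements which are used -/
structure Ir {H : Type} [Group H] (χ : H →* ℝ) (D : H →* M2) : Prop where
  irr : ∀ U : Submodule ℝ V2, (∀ γ, ∀ u ∈ U, D γ *ᵥ u ∈ U) → U = ⊥ ∨ U = ⊤
  ne : ∃ γ, χ γ ≠ 1
  c : ∃ c, χ c = 1 ∧ (D c).det = 1 ∧ D c 0 0 + D c 1 1 ≠ 2

/-- lattices: integral kernels -/
def S_LATKER : Prop := ∀ (V : Type) [NormedAddCommGroup V] [NormedSpace ℝ V]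
  [FiniteDimensional ℝ V] (L : AddSubgroup V) (_ : ∃ δ : ℝ, 0 < δ ∧ ∀ x ∈ L, ‖x‖ < δ → x = 0)
  (f : V →ₗ[ℝ] V) (_ : ∀ x ∈ L, f x ∈ L) (x : V) (_ : x ∈ Submodule.span ℝ (L : Set V))
  (_ : x ≠ 0) (_ : f x = 0), ∃ y ∈ L, y ≠ 0 ∧ f y = 0

/-- lattices: integral determinants -/
def S_LATDET : Prop := ∀ (V Y : Type) [NormedAddCommGroup V] [NormedSpace ℝ V]
  [FiniteDimensional ℝ V] [AddCommGroup Y] [Module ℝ Y]
  (L : AddSubgroup V) (_ : ∃ δ : ℝ, 0 < δ ∧ ∀ x ∈ L, ‖x‖ < δ → x = 0)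
  (f : V →ₗ[ℝ] V) (_ : ∀ x ∈ L, f x ∈ L) (p : V →ₗ[ℝ] Y)
  (_ : ∀ x ∈ Submodule.span ℝ (L : Set V), p x = 0 → x = 0)
  (_ : ∀ y, ∃ x ∈ Submodule.span ℝ (L : Set V), p x = y)
  (g : Y →ₗ[ℝ] Y) (_ : ∀ x ∈ L, p (f x) = g (p x)), ∃ m : ℤ, LinearMap.det g = m

/-- line case -/
def S_ALL : Prop := ∀ (H : Type) [Group H] (R : H →* M4) (χ : H →* ℝ) (D : H →* M2)
  (L : AddSubgroup M4), BlL R χ D → Ir χ D → La wL R L → ∀ x ∈ L, x = 0

/-- plane case -/
def S_ALP : Prop := ∀ (H : Type) [Group H] (R : H →* M4) (χ : H →* ℝ) (D : H →* M2)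
  (L : AddSubgroup M4), BlP R χ D → Ir χ D → La wP R L → ∀ x ∈ L, x = 0

end Pool.Agent.Helper63.Rd
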