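import Pool.Agent.Helper63.Rd.Cas

/-!
Project Rd (helper63): the flag of a block triangular group with bounded normalised matrices.
-/

set_option autoImplicit false

open Set Filter Topology
open scoped Matrix

namespace Pool.Agent.Helper63.Rd

open Pool.Agent.Helper63.Mk
open Pool.Agent.W689.Mk (AffData)

section flag

variable {X E H : Type} [NormedAddCommGroup E] [NormedSpace ℝ E] [FiniteDimensional ℝ E]
  [Group H] {hol : H →* (E ≃ᵃ[ℝ] E)} {b : Module.Basis (Fin 3) ℝ E}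
  {w : Fin 4 → ℕ} {u : Fin 2 → Fin 4} {k : Fin 4}

/-- the flag -/
def Sf (b : Module.Basis (Fin 3) ℝ E) (w : Fin 4 → ℕ) (i : ℕ) : Submodule ℝ E :=
  if i = 0 then ⊥ else if i = 1 then S1 b w else ⊤

/-- the component of the image in the level `e` -/
noncomputable def Xc (b : Module.Basis (Fin 3) ℝ E) (w : Fin 4 → ℕ) (hol : H →* (E ≃ᵃ[ℝ] E))
    (e : ℕ) (γ : H) (v : E) : E :=
  ∑ i : Fin 3, (if w i.castSucc = e then ∑ j : Fin 3, (if w j.castSucc = e then
    R4 b hol γ i.castSucc j.castSucc * b.repr v j else 0) else 0) • b i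

theorem repr_Xc (e : ℕ) (γ : H) (v : E) (i : Fin 3) : b.repr (Xc b w hol e γ v) i =
    if w i.castSucc = e then ∑ j : Fin 3, (if w j.castSucc = e then
    R4 b hol γ i.castSucc j.castSucc * b.repr v j else 0) else 0 := by
  unfold Xc
  rw [b.repr_sum_self]

theorem Xc_two (hw : Cs w u k) (ht : ∀ γ i j, w i < w j → R4 b hol γ i j = 0) (γ : H) {v : E}
    (hv : v ∈ S1 b w) : (hol γ).linear v = Xc b w hol 2 γ v := by
  apply b.repr.injective
  ext i
  rw [repr_Xc, repr_lin]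
  rcases w_cases hw i with h | h
  · rw [if_neg (by omega)]
    refine Finset.sum_eq_zero fun j _ => ?_
    rcases w_cases hw j with h' | h'
    · rw [hv j h', mul_zero]
    · rw [ht γ _ _ (by omega), zero_mul]
  · rw [if_pos h]
    refine Finset.sum_congr rfl fun j _ => ?_
    rcases w_cases hw j with h' | h'
    · rw [if_neg (by omega), hv j h', mul_zero]
    · rw [if_pos h']

theorem Xc_one (hw : Cs w u k) (ht : ∀ γ i j, w i < w j → R4 b hol γ i j = 0) (γ : H) (v : E) :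
    (hol γ).linear v - Xc b w hol 1 γ v ∈ S1 b w := by
  intro i hi
  rw [map_sub, Finsupp.sub_apply, repr_Xc, repr_lin, if_pos hi, ← Finset.sum_sub_distrib]
  refine Finset.sum_eq_zero fun j _ => ?_
  rcases w_cases hw j with h' | h'
  · rw [if_pos h', sub_self]
  · rw [if_neg (by omega), ht γ _ _ (by omega), zero_mul, sub_zero]

theorem Xc_norm (b : Module.Basis (Fin 3) ℝ E) (w : Fin 4 → ℕ) (hol : H →* (E ≃ᵃ[ℝ] E))
    (M : ℝ) (hM0 : 0 ≤ M) : ∃ C : ℝ, 0 ≤ C ∧ ∀ (e : ℕ) (γ : H) (v : E) (c : ℝ), 0 ≤ c →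
      (∀ i j : Fin 4, w i = e → w j = e → |R4 b hol γ i j| ≤ M * c) →
      ‖Xc b w hol e γ v‖ ≤ C * c * ‖v‖ := by
  obtain ⟨B, hB0, hB⟩ : ∃ B : ℝ, 0 ≤ B ∧ ∀ (v : E) (j : Fin 3), |b.repr v j| ≤ B * ‖v‖ := by
    let L : E →L[ℝ] (Fin 3 → ℝ) := LinearMap.toContinuousLinearMap b.equivFun.toLinearMap
    refine ⟨‖L‖, norm_nonneg _, fun v j => ?_⟩
    have h1 := L.le_opNorm v
    have h2 := norm_le_pi_norm (L v) j
    exact h2.trans h1
  refine ⟨∑ i : Fin 3, (3 * M * B) * ‖b i‖, by positivity, fun e γ v c hc hR => ?_⟩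
  have hv := norm_nonneg v
  unfold Xc
  refine (norm_sum_le _ _).trans ?_
  rw [Finset.sum_mul, Finset.sum_mul]
  refine Finset.sum_le_sum fun i _ => ?_
  rw [norm_smul, Real.norm_eq_abs]
  have h1 : |if w i.castSucc = e then ∑ j : Fin 3, (if w j.castSucc = e then
      R4 b hol γ i.castSucc j.castSucc * b.repr v j else 0) else 0| ≤ 3 * M * B * c * ‖v‖ := by
    by_cases hi : w i.castSucc = e
    · rw [if_pos hi]
      refine (Finset.abs_sum_le_sum_abs _ _).trans ?_
      have h2 : ∀ j ∈ (Finset.univ : Finset (Fin 3)), |if w j.castSucc = e then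
          R4 b hol γ i.castSucc j.castSucc * b.repr v j else 0| ≤ M * B * c * ‖v‖ := by
        intro j _
        by_cases hj : w j.castSucc = e
        · rw [if_pos hj, abs_mul]
          have h3 := hR _ _ hi hj
          have h4 := hB v j
          calc |R4 b hol γ i.castSucc j.castSucc| * |b.repr v j| ≤ (M * c) * (B * ‖v‖) := by
                gcongr
            _ = _ := by ring
        · rw [if_neg hj, abs_zero]
          positivity
      refine (Finset.sum_le_sum h2).trans ?_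
      rw [Finset.sum_const, Finset.card_univ, Fintype.card_fin, nsmul_eq_mul]
      apply le_of_eq
      push_cast
      ring
    · rw [if_neg hi, abs_zero]
      positivity
  calc _ ≤ (3 * M * B * c * ‖v‖) * ‖b i‖ := by gcongr
    _ = _ := by ring

/-- **The flag.** -/
theorem flag (hw : Cs w u k) (ht : ∀ γ i j, w i < w j → R4 b hol γ i j = 0) (c : ℕ → H → ℝ)
    (hc0 : ∀ e γ, 0 < c e γ) (hci : ∀ e γ, c e γ⁻¹ = (c e γ)⁻¹) (M : ℝ) (hM0 : 0 ≤ M)
    (hM : ∀ e γ, e = 1 ∨ e = 2 → ∀ i j, w i = e → w j = e → |R4 b hol γ i j| ≤ M * c e γ) :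
    Pool.Agent.Results.MP_df2bd8_gt.QuasiConformalFlags.ConformalFlag hol ⊤ (Sf b w) 2 := by
  obtain ⟨C, hC0, hC⟩ := Xc_norm b w hol M hM0
  have s0 : Sf b w 0 = ⊥ := rfl
  have s1 : Sf b w 1 = S1 b w := rfl
  have s2 : Sf b w 2 = ⊤ := rfl
  refine ⟨s0, s2, ?_, ?_, C, ?_⟩
  · intro i hi
    interval_cases i
    · rw [s0]; exact bot_le
    · rw [s2]; exact le_top
  · intro i hi γ _ v hv
    interval_cases i
    · rw [s0, Submodule.mem_bot] at hv ⊢
      rw [hv, map_zero]
    · rw [s1] at hv ⊢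
      intro i hi'
      rw [repr_lin]
      refine Finset.sum_eq_zero fun j _ => ?_
      rcases w_cases hw j with h' | h'
      · rw [hv j h', mul_zero]
      · rw [ht γ _ _ (by omega), zero_mul]
    · rw [s2]; trivial
  · intro i hi γ _
    interval_cases i
    · refine ⟨c 2 γ, hc0 2 γ, fun v hv => ⟨⟨0, Submodule.zero_mem _, ?_⟩,
        ⟨0, Submodule.zero_mem _, ?_⟩⟩⟩
      · rw [sub_zero, Xc_two hw ht γ hv]
        exact hC 2 γ v _ (hc0 _ _).le (hM 2 γ (Or.inr rfl))
      · rw [sub_zero, Xc_two hw ht γ⁻¹ hv, ← hci]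
        exact hC 2 γ⁻¹ v _ (hc0 _ _).le (hM 2 γ⁻¹ (Or.inr rfl))
    · refine ⟨c 1 γ, hc0 1 γ, fun v _ => ⟨⟨_, Xc_one hw ht γ v, ?_⟩, ⟨_, Xc_one hw ht γ⁻¹ v, ?_⟩⟩⟩
      · rw [sub_sub_cancel]
        exact hC 1 γ v _ (hc0 _ _).le (hM 1 γ (Or.inl rfl))
      · rw [sub_sub_cancel, ← hci]
        exact hC 1 γ⁻¹ v _ (hc0 _ _).le (hM 1 γ⁻¹ (Or.inl rfl))

variable [TopologicalSpace X] [T2Space X] [SecondCountableTopology X] [ConnectedSpace X]
  [MulAction H X] {dev : X → E}

/-- the bounded case -/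
theorem case_bdd (A : AffData X H E dev hol) (hinj : Function.Injective dev) (hw : Cs w u k)
    {χ : H →* ℝ} {D : H →* M2} (B : Bl w u k (R4 b hol) χ D) (M : ℝ)
    (hM : ∀ γ i j, |Dh χ D B.pos γ i j| ≤ M) : IsHomeomorph dev := by
  have hM0 : 0 ≤ M := (abs_nonneg _).trans (hM 1 0 0)
  have hD : ∀ γ i j, |D γ i j| ≤ M * (√(χ γ))⁻¹ := by
    intro γ i j
    have h1 := hM γ i j
    have hs : 0 < √(χ γ) := Real.sqrt_pos.2 (B.pos γ)
    rw [Dh_apply, Matrix.smul_apply, smul_eq_mul, abs_mul, abs_of_pos hs] at h1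
    rw [← div_eq_mul_inv, le_div_iff₀ hs, mul_comm]
    exact h1
  have hχi : ∀ γ, χ γ⁻¹ = (χ γ)⁻¹ := by
    intro γ
    have h1 : χ γ⁻¹ * χ γ = 1 := by rw [← map_mul, inv_mul_cancel, map_one]
    exact eq_inv_of_mul_eq_one_left h1
  refine (Pool.Agent.Results.MP_df2bd8_gt.QuasiConformalFlags.result X H E dev hol A hinj ⊤
    inferInstance _ 2 (flag hw B.tri (fun e γ => if e = w k then χ γ else (√(χ γ))⁻¹)
      ?_ ?_ (max M 1) (by positivity) ?_)).1
  · intro e γ
    split_ifs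
    · exact B.pos γ
    · exact inv_pos.2 (Real.sqrt_pos.2 (B.pos γ))
  · intro e γ
    split_ifs
    · exact hχi γ
    · rw [hχi, Real.sqrt_inv]
  · intro e γ he i j hi hj
    have hp := B.pos γ
    have hs : 0 < √(χ γ) := Real.sqrt_pos.2 hp
    have m1 : M * (√(χ γ))⁻¹ ≤ max M 1 * (√(χ γ))⁻¹ :=
      mul_le_mul_of_nonneg_right (le_max_left _ _) (inv_pos.2 hs).le
    have m2 : χ γ ≤ max M 1 * χ γ := by
      have := le_max_right M 1
      nlinarith
    have d00 := (hD γ 0 0).trans m1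
    have d01 := (hD γ 0 1).trans m1
    have d10 := (hD γ 1 0).trans m1
    have d11 := (hD γ 1 1).trans m1
    rcases hw with ⟨rfl, rfl, rfl⟩ | ⟨rfl, rfl, rfl⟩
    · obtain ⟨a10, a20, a30, a31, a32, a00, a11, a12, a21, a22, a33⟩ := shL B γ
      rcases he with rfl | rfl
      · rw [if_neg (by simp [wL])]
        fin_cases i <;> simp [wL] at hi <;> fin_cases j <;> simp [wL] at hj
        · exact a11 ▸ d00
        · exact a12 ▸ d01
        · exact a21 ▸ d10
        · exact a22 ▸ d11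
      · rw [if_pos (by simp [wL])]
        fin_cases i <;> simp [wL] at hi
        fin_cases j <;> simp [wL] at hj
        show |R4 b hol γ 0 0| ≤ _
        rw [a00, abs_of_pos hp]
        exact m2
    · obtain ⟨a20, a21, a30, a31, a32, a22, a00, a01, a10, a11, a33⟩ := shP B γ
      rcases he with rfl | rfl
      · rw [if_pos (by simp [wP])]
        fin_cases i <;> simp [wP] at hi
        fin_cases j <;> simp [wP] at hj
        show |R4 b hol γ 2 2| ≤ _
        rw [a22, abs_of_pos hp]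
        exact m2
      · rw [if_neg (by simp [wP])]
        fin_cases i <;> simp [wP] at hi <;> fin_cases j <;> simp [wP] at hj
        · exact a00 ▸ d00
        · exact a01 ▸ d01
        · exact a10 ▸ d10
        · exact a11 ▸ d11

end flag

end Pool.Agent.Helper63.Rd
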