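import Pool.Agent.Helper63.Rd.Bet
import Pool.Agent.Helper63.Ce.Lg
import Pool.Agent.Helper63.Mk.Mod

/-!
Project Rd (helper63): the matrices of the affine holonomy.
-/

set_option autoImplicit false

open Set Filter Topology
open scoped Matrix

namespace Pool.Agent.Helper63.Rd

open Pool.Agent.Helper63.Mk
open Pool.Agent.Helper63.Ce (rp rp_one rp_zero rp_snd nil_of_unip)
open Pool.Agent.W689.Mk (AffData)

section mats

variable {E H : Type} [NormedAddCommGroup E] [NormedSpace ℝ E] [FiniteDimensional ℝ E] [Group H]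

/-- coordinates -/
noncomputable def e4 (b : Module.Basis (Fin 3) ℝ E) : (E × ℝ) ≃ₗ[ℝ] (Fin 4 → ℝ) where
  toFun p := ![b.repr p.1 0, b.repr p.1 1, b.repr p.1 2, p.2]
  map_add' p q := by
    ext i
    fin_cases i <;> simp
  map_smul' c p := by
    ext i
    fin_cases i <;> simp
  invFun v := (v 0 • b 0 + v 1 • b 1 + v 2 • b 2, v 3)
  left_inv p := by
    have h := b.sum_repr p.1
    rw [Fin.sum_univ_three] at h
    exact Prod.ext h rfl
  right_inv v := by
    ext i
    fin_cases i <;> simp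

/-- the basis -/
noncomputable def B4 (b : Module.Basis (Fin 3) ℝ E) : Module.Basis (Fin 4) ℝ (E × ℝ) :=
  Module.Basis.ofEquivFun (e4 b)

theorem e4_single (b : Module.Basis (Fin 3) ℝ E) (j : Fin 4) (p : E × ℝ)
    (h : e4 b p = Pi.single j 1) : B4 b j = p := by
  rw [B4, Module.Basis.coe_ofEquivFun]
  show (e4 b).symm (Pi.single j 1) = p
  rw [← h, LinearEquiv.symm_apply_apply]

theorem B4_0 (b : Module.Basis (Fin 3) ℝ E) : B4 b 0 = (b 0, 0) := by
  apply e4_single
  ext i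
  fin_cases i <;> simp [e4]

theorem B4_1 (b : Module.Basis (Fin 3) ℝ E) : B4 b 1 = (b 1, 0) := by
  apply e4_single
  ext i
  fin_cases i <;> simp [e4]

theorem B4_2 (b : Module.Basis (Fin 3) ℝ E) : B4 b 2 = (b 2, 0) := by
  apply e4_single
  ext i
  fin_cases i <;> simp [e4]

theorem B4_3 (b : Module.Basis (Fin 3) ℝ E) : B4 b 3 = (0, 1) := by
  apply e4_single
  ext i
  fin_cases i <;> simp [e4]

/-- matrices of operators -/
noncomputable def mx (b : Module.Basis (Fin 3) ℝ E) : ((E × ℝ) →L[ℝ] (E × ℝ)) →+* M4 :=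
  ((LinearMap.toMatrixAlgEquiv (B4 b)).toAlgHom.toRingHom).comp
    ContinuousLinearMap.toLinearMapRingHom

omit [FiniteDimensional ℝ E] in
theorem mx_apply (b : Module.Basis (Fin 3) ℝ E) (T : (E × ℝ) →L[ℝ] (E × ℝ)) (i j : Fin 4) :
    mx b T i j = e4 b (T (B4 b j)) i := by
  show (LinearMap.toMatrixAlgEquiv (B4 b)) (T : (E × ℝ) →ₗ[ℝ] (E × ℝ)) i j = _
  rw [LinearMap.toMatrixAlgEquiv_apply, B4, Module.Basis.ofEquivFun_repr_apply]
  rfl

/-- the matrices of the holonomy -/
noncomputable def R4 (b : Module.Basis (Fin 3) ℝ E) (hol : H →* (E ≃ᵃ[ℝ] E)) : H →* M4 :=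
  (mx b : ((E × ℝ) →L[ℝ] (E × ℝ)) →* M4).comp (rp hol)

variable {b : Module.Basis (Fin 3) ℝ E} {hol : H →* (E ≃ᵃ[ℝ] E)}

theorem R4_eq (γ : H) : R4 b hol γ = mx b (rp hol γ) := rfl

/-- the linear entries -/
theorem R4_lin (γ : H) (i j : Fin 3) :
    R4 b hol γ i.castSucc j.castSucc = b.repr ((hol γ).linear (b j)) i := by
  rw [R4_eq, mx_apply]
  have h : ∀ j : Fin 3, B4 b j.castSucc = (b j, 0) := by
    intro j
    fin_cases j
    · exact B4_0 b
    · exact B4_1 b
    · exact B4_2 b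
  rw [h, rp_zero]
  fin_cases i <;> rfl

theorem R4_3 (γ : H) (j : Fin 3) : R4 b hol γ 3 j.castSucc = 0 := by
  rw [R4_eq, mx_apply]
  have h : ∀ j : Fin 3, B4 b j.castSucc = (b j, 0) := by
    intro j
    fin_cases j
    · exact B4_0 b
    · exact B4_1 b
    · exact B4_2 b
  rw [h, rp_zero]
  rfl

theorem R4_33 (γ : H) : R4 b hol γ 3 3 = 1 := by
  rw [R4_eq, mx_apply, B4_3, rp_one]
  rfl

/-- the determinant -/
theorem R4_det (γ : H) : LinearMap.det ((hol γ).linear : E →ₗ[ℝ] E) =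
    Matrix.det (Matrix.of fun i j : Fin 3 => R4 b hol γ i.castSucc j.castSucc) := by
  rw [← LinearMap.det_toMatrix b]
  congr 1
  ext i j
  rw [LinearMap.toMatrix_apply, Matrix.of_apply, R4_lin]
  rfl

/-- nilpotency -/
theorem R4_nil {a : H} (h : IsNilpotent (rp hol a - 1)) : IsNilpotent (R4 b hol a - 1) := by
  have h1 := h.map (mx b)
  rwa [map_sub, map_one] at h1

/-- points from matrices -/
noncomputable def pt (b : Module.Basis (Fin 3) ℝ E) (c : Fin 4 → ℝ) (M : M4) : E :=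
  ((e4 b).symm (M *ᵥ c)).1

omit [FiniteDimensional ℝ E] in
theorem pt_cont (b : Module.Basis (Fin 3) ℝ E) (c : Fin 4 → ℝ) : Continuous (pt b c) := by
  have h1 : Continuous fun M : M4 => M *ᵥ c := Continuous.matrix_mulVec continuous_id continuous_const
  have h2 : Continuous (e4 b).symm := LinearMap.continuous_of_finiteDimensional
    (e4 b).symm.toLinearMap
  exact continuous_fst.comp (h2.comp h1)

theorem mx_mulVec (T : (E × ℝ) →L[ℝ] (E × ℝ)) (p : E × ℝ) : mx b T *ᵥ (e4 b p) = e4 b (T p) := by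
  have h : p = ∑ j, e4 b p j • B4 b j := by
    have := (B4 b).sum_repr p
    rw [B4] at this ⊢
    simp only [Module.Basis.ofEquivFun_repr_apply] at this
    exact this.symm
  have h2 : e4 b (T p) = ∑ j, e4 b p j • e4 b (T (B4 b j)) := by
    conv_lhs => rw [h]
    rw [map_sum, map_sum]
    refine Finset.sum_congr rfl fun j _ => ?_
    rw [map_smul, map_smul]
  rw [h2]
  ext i
  rw [Finset.sum_apply]
  show ∑ j, mx b T i j * e4 b p j = _
  refine Finset.sum_congr rfl fun j _ => ?_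
  rw [mx_apply, Pi.smul_apply, smul_eq_mul, mul_comm]

theorem pt_R4 (γ : H) (v : E) : pt b (e4 b (v, 1)) (R4 b hol γ) = hol γ v := by
  rw [pt, R4_eq, mx_mulVec, rp_one, LinearEquiv.symm_apply_apply]

end mats

section disc

variable {X E H : Type} [NormedAddCommGroup E] [NormedSpace ℝ E] [FiniteDimensional ℝ E]
  [Group H] [TopologicalSpace X] [MulAction H X] {dev : X → E}
  {hol : H →* (E ≃ᵃ[ℝ] E)} {b : Module.Basis (Fin 3) ℝ E}

/-- discreteness -/
theorem R4_fin [Nonempty X] (A : AffData X H E dev hol) (hinj : Function.Injective dev) :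
    ∃ ε : ℝ, 0 < ε ∧ {γ : H | ∀ i j, |R4 b hol γ i j - (1 : M4) i j| < ε}.Finite := by
  obtain ⟨x⟩ := ‹Nonempty X›
  have hemb : IsOpenEmbedding dev := A.loc.isOpenEmbedding_of_injective hinj
  obtain ⟨K, hK, hKx⟩ : ∃ K : Set X, IsCompact K ∧ K ∈ 𝓝 x := by
    have h1 : LocallyCompactSpace X := hemb.locallyCompactSpace
    exact exists_compact_mem_nhds x
  have hU : dev '' K ∈ 𝓝 (dev x) := hemb.image_mem_nhds.2 hKx
  have hc := (pt_cont b (e4 b (dev x, 1))).tendsto (1 : M4)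
  have h1 : pt b (e4 b (dev x, 1)) 1 = dev x := by
    have := pt_R4 (b := b) (hol := hol) 1 (dev x)
    rw [map_one, map_one] at this
    exact this
  rw [h1] at hc
  have h2 : (pt b (e4 b (dev x, 1))) ⁻¹' (dev '' K) ∈ 𝓝 (1 : M4) := hc hU
  obtain ⟨ε, hε, h3⟩ := Metric.mem_nhds_iff.1
    (show (pt b (e4 b (dev x, 1))) ⁻¹' (dev '' K) ∈ 𝓝 (fun i j => (1 : M4) i j : Fin 4 → Fin 4 → ℝ)
      from h2)
  refine ⟨ε, hε, (A.pd K hK).subset ?_⟩
  intro γ hγ
  have h4 : (fun i j => R4 b hol γ i j : Fin 4 → Fin 4 → ℝ) ∈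
      Metric.ball (fun i j => (1 : M4) i j : Fin 4 → Fin 4 → ℝ) ε := by
    rw [Metric.mem_ball, dist_pi_lt_iff hε]
    intro i
    rw [dist_pi_lt_iff hε]
    intro j
    rw [Real.dist_eq]
    exact hγ i j
  obtain ⟨y, hy, hy2⟩ := h3 h4
  have h5 : dev y = hol γ (dev x) := hy2.trans (pt_R4 γ (dev x))
  refine ⟨x, mem_of_mem_nhds hKx, ?_⟩
  have h6 : dev (γ • x) = dev y := by rw [A.equi, h5]
  rw [hinj h6]
  exact hy

theorem R4_disc [Nonempty X] (A : AffData X H E dev hol) (hinj : Function.Injective dev) :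
    ∃ ε : ℝ, 0 < ε ∧ ∀ γ, (∀ i j, |R4 b hol γ i j - (1 : M4) i j| < ε) → R4 b hol γ = 1 := by
  obtain ⟨ε, hε, hfin⟩ := R4_fin (b := b) A hinj
  -- the finitely many elements
  have key : ∀ S : Set H, S.Finite → ∃ δ : ℝ, 0 < δ ∧
      ∀ γ ∈ S, (∀ i j, |R4 b hol γ i j - (1 : M4) i j| < δ) → R4 b hol γ = 1 := by
    intro S hS
    induction S, hS using Set.Finite.induction_on with
    | empty => exact ⟨1, one_pos, fun γ hγ => absurd hγ (Set.notMem_empty γ)⟩
    | insert _ _ ih =>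
      rename_i a S _ _
      obtain ⟨δ, hδ, h⟩ := ih
      by_cases ha : R4 b hol a = 1
      · refine ⟨δ, hδ, fun γ hγ => ?_⟩
        rcases hγ with rfl | hγ
        · exact fun _ => ha
        · exact h γ hγ
      · obtain ⟨i, j, hij⟩ : ∃ i j, R4 b hol a i j ≠ (1 : M4) i j := by
          by_contra hcon
          push Not at hcon
          exact ha (Matrix.ext hcon)
        refine ⟨min δ |R4 b hol a i j - (1 : M4) i j|,
          lt_min hδ (abs_pos.2 (sub_ne_zero.2 hij)), fun γ hγ hs => ?_⟩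
        rcases hγ with rfl | hγ
        · exact absurd ((hs i j).trans_le (min_le_right _ _)) (lt_irrefl _)
        · exact h γ hγ fun i j => (hs i j).trans_le (min_le_left _ _)
  obtain ⟨δ, hδ, h⟩ := key _ hfin
  exact ⟨min ε δ, lt_min hε hδ, fun γ hγ => h γ (fun i j => (hγ i j).trans_le (min_le_left _ _))
    fun i j => (hγ i j).trans_le (min_le_right _ _)⟩

theorem R4_ker_fin [Nonempty X] (A : AffData X H E dev hol) (hinj : Function.Injective dev) :
    {γ : H | R4 b hol γ = 1}.Finite := by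
  obtain ⟨ε, hε, hfin⟩ := R4_fin (b := b) A hinj
  refine hfin.subset fun γ hγ i j => ?_
  rw [show R4 b hol γ = 1 from hγ, sub_self, abs_zero]
  exact hε

/-- commuting normal subgroups are unipotent -/
theorem R4_unip [T2Space X] [SecondCountableTopology X] [ConnectedSpace X]
    (A : AffData X H E dev hol) (N : Subgroup H) (hN : N.Normal)
    (hc : ∀ a ∈ N, ∀ c ∈ N, R4 b hol a * R4 b hol c = R4 b hol c * R4 b hol a) (a : H)
    (ha : a ∈ N) : IsNilpotent (R4 b hol a - 1) := by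
  let _ : MeasurableSpace E := borel E
  have : BorelSpace E := ⟨rfl⟩
  apply R4_nil
  apply nil_of_unip
  refine (Pool.Agent.Results.MP_df2bd8_gt.CommensuratedSubgroups.result E X H dev hol A ⊤ N
    inferInstance).unipotent ?_ ?_ a ha
  · intro a ha c hc' q
    have h1 := hc a ha c hc'
    rw [← map_mul, ← map_mul] at h1
    have h2 := pt_R4 (b := b) (hol := hol) (a * c) q
    rw [h1, pt_R4] at h2
    rw [map_mul, map_mul] at h2
    exact h2.symm
  · intro γ _ a ha
    exact ⟨γ * a * γ⁻¹, hN.conj_mem a ha γ, fun q => rfl⟩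

end disc

end Pool.Agent.Helper63.Rd
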