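import Pool.Agent.Helper63.Rd.Wld

/-!
Project Rd (helper63): closed affine three-manifolds with reducible linear holonomy.
-/

set_option autoImplicit false

open Set Filter Topology
open scoped Matrix commutatorElement

namespace Pool.Agent.Helper63.Rd

open Pool.Agent.Helper63.Mk
open Pool.Agent.W689.Mk (AffData)

/-- the elements with positive character -/
theorem sign_sub {H : Type} [Group H] (χ : H →* ℝ) :
    ∃ K : Subgroup H, K.FiniteIndex ∧ ∀ γ ∈ K, 0 < χ γ := by
  have hne : ∀ γ, χ γ ≠ 0 := by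
    intro γ h0
    have h1 : χ γ * χ γ⁻¹ = 1 := by rw [← map_mul, mul_inv_cancel, map_one]
    rw [h0, zero_mul] at h1
    exact zero_ne_one h1
  have hinv : ∀ γ, χ γ⁻¹ = (χ γ)⁻¹ := by
    intro γ
    have h1 : χ γ⁻¹ * χ γ = 1 := by rw [← map_mul, inv_mul_cancel, map_one]
    exact eq_inv_of_mul_eq_one_left h1
  let K : Subgroup H :=
    { carrier := {γ | 0 < χ γ}
      one_mem' := by
        show 0 < χ 1
        rw [map_one]; exact one_pos
      mul_mem' := by
        intro x y hx hy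
        show 0 < χ (x * y)
        rw [map_mul]
        exact mul_pos hx hy
      inv_mem' := by
        intro x hx
        show 0 < χ x⁻¹
        rw [hinv]
        exact inv_pos.2 hx }
  refine ⟨K, ?_, fun γ hγ => hγ⟩
  by_cases hall : ∀ γ, 0 < χ γ
  · have : K = ⊤ := by
      rw [eq_top_iff]
      exact fun γ _ => hall γ
    rw [this]
    infer_instance
  push Not at hall
  obtain ⟨δ, hδ⟩ := hall
  have hδ' : χ δ < 0 := lt_of_le_of_ne hδ (hne δ)
  have hK : ∀ γ, γ ∈ K ∨ δ⁻¹ * γ ∈ K := by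
    intro γ
    rcases lt_or_gt_of_ne (hne γ) with h | h
    · right
      show 0 < χ (δ⁻¹ * γ)
      rw [map_mul, hinv]
      exact mul_pos_of_neg_of_neg (inv_lt_zero.2 hδ') h
    · exact Or.inl h
  have hfin : Finite (H ⧸ K) := by
    refine Finite.of_surjective (fun x : Bool => (if x then ((1 : H) : H ⧸ K) else (δ : H ⧸ K))) ?_
    intro q
    obtain ⟨γ, rfl⟩ := QuotientGroup.mk_surjective q
    rcases hK γ with h1 | h1
    · refine ⟨true, ?_⟩
      simp only [if_true]
      rw [QuotientGroup.eq]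
      simpa using h1
    · refine ⟨false, ?_⟩
      simp only [Bool.false_eq_true, if_false]
      rw [QuotientGroup.eq]
      exact h1
  exact Subgroup.finiteIndex_of_finite_quotient

/-- adapted bases -/
theorem adapted {E : Type} [AddCommGroup E] [Module ℝ E] [FiniteDimensional ℝ E]
    (W : Submodule ℝ E) (d e : ℕ) (hd : Module.finrank ℝ W = d)
    (he : Module.finrank ℝ E = d + e) :
    ∃ b : Module.Basis (Fin (d + e)) ℝ E, ∀ v, v ∈ W ↔ ∀ j : Fin e, b.repr v (Fin.natAdd d j) = 0 := by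
  obtain ⟨U, hU⟩ := W.exists_isCompl
  have h2 : Module.finrank ℝ U = e := by
    have := Submodule.finrank_add_eq_of_isCompl hU
    omega
  let bW : Module.Basis (Fin d) ℝ W := Module.finBasisOfFinrankEq ℝ W hd
  let bU : Module.Basis (Fin e) ℝ U := Module.finBasisOfFinrankEq ℝ U h2
  let f := Submodule.prodEquivOfIsCompl W U hU
  refine ⟨((bW.prod bU).map f).reindex finSumFinEquiv, fun v => ?_⟩
  have h3 : ∀ j : Fin e, (((bW.prod bU).map f).reindex finSumFinEquiv).repr v (Fin.natAdd d j) =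
      bU.repr (f.symm v).2 j := by
    intro j
    rw [Module.Basis.repr_reindex_apply, finSumFinEquiv_symm_apply_natAdd]
    rfl
  have h4 : v ∈ W ↔ (f.symm v).2 = 0 :=
    (Submodule.prodEquivOfIsCompl_symm_apply_snd_eq_zero (h := hU) (x := v)).symm
  rw [h4]
  constructor
  · intro h j
    rw [h3, h, map_zero, Finsupp.zero_apply]
  · intro h
    apply bU.repr.injective
    ext j
    rw [← h3, h j, map_zero, Finsupp.zero_apply]

section main

variable {X E H : Type} [NormedAddCommGroup E] [NormedSpace ℝ E] [FiniteDimensional ℝ E]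
  [Group H] [TopologicalSpace X] [T2Space X] [SecondCountableTopology X] [ConnectedSpace X]
  [MulAction H X] {dev : X → E} {hol : H →* (E ≃ᵃ[ℝ] E)}

theorem any_case (A : AffData X H E dev hol) (hinj : Function.Injective dev)
    {b : Module.Basis (Fin 3) ℝ E} {w : Fin 4 → ℕ} {u : Fin 2 → Fin 4} {k : Fin 4}
    (hw : Cs w u k) (key : Key w u k) (ht : ∀ γ i j, w i < w j → R4 b hol γ i j = 0) :
    IsHomeomorph dev := by
  obtain ⟨K, hK, hpos⟩ := sign_sub (chiH hw ht)
  exact pos_case (b := b) (Pool.Agent.Y449.MK.restrict A K hK) hinj hw key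
    (fun γ i j hij => ht γ i j hij) (fun γ => hpos γ γ.2)

/-- **Reducible linear holonomy in dimension three.** -/
theorem main (h1 : S_ALL) (h2 : S_ALP) (A : AffData X H E dev hol)
    (hinj : Function.Injective dev) (hE : Module.finrank ℝ E = 3) (W : Submodule ℝ E)
    (hW0 : W ≠ ⊥) (hW1 : W ≠ ⊤) (hW : ∀ γ, ∀ v ∈ W, (hol γ).linear v ∈ W) :
    IsHomeomorph dev := by
  have hlt : Module.finrank ℝ W < 3 := by
    rw [← hE]
    exact Submodule.finrank_lt hW1
  have hgt : 0 < Module.finrank ℝ W := by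
    rw [Nat.pos_iff_ne_zero]
    intro h
    exact hW0 (Submodule.finrank_eq_zero.1 h)
  obtain hd | hd : Module.finrank ℝ W = 1 ∨ Module.finrank ℝ W = 2 := by omega
  · obtain ⟨b, hb⟩ := adapted W 1 2 hd hE
    have hw : Cs wL ![1, 2] 0 := Or.inl ⟨rfl, rfl, rfl⟩
    have hb0 : b (0 : Fin 3) ∈ W := by
      rw [hb]
      intro j
      fin_cases j
      · show b.repr (b (0 : Fin 3)) (1 : Fin 3) = 0
        rw [b.repr_self]; simp
      · show b.repr (b (0 : Fin 3)) (2 : Fin 3) = 0
        rw [b.repr_self]; simp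
    refine any_case (b := b) A hinj hw (key_of h1 h2 hw) ?_
    have h10 : ∀ γ, R4 b hol γ 1 0 = 0 := fun γ =>
      (R4_lin (b := b) γ 1 0).trans ((hb _).1 (hW γ _ hb0) 0)
    have h20 : ∀ γ, R4 b hol γ 2 0 = 0 := fun γ =>
      (R4_lin (b := b) γ 2 0).trans ((hb _).1 (hW γ _ hb0) 1)
    have h30 : ∀ γ, R4 b hol γ 3 0 = 0 := fun γ => R4_3 (b := b) γ 0
    have h31 : ∀ γ, R4 b hol γ 3 1 = 0 := fun γ => R4_3 (b := b) γ 1
    have h32 : ∀ γ, R4 b hol γ 3 2 = 0 := fun γ => R4_3 (b := b) γ 2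
    intro γ i j hij
    fin_cases i <;> fin_cases j <;> simp [wL] at hij
    · exact h10 γ
    · exact h20 γ
    · exact h30 γ
    · exact h31 γ
    · exact h32 γ
  · obtain ⟨b, hb⟩ := adapted W 2 1 hd hE
    have hw : Cs wP ![0, 1] 2 := Or.inr ⟨rfl, rfl, rfl⟩
    have hb0 : b (0 : Fin 3) ∈ W := by
      rw [hb]
      intro j
      fin_cases j
      show b.repr (b (0 : Fin 3)) (2 : Fin 3) = 0
      rw [b.repr_self]; simp
    have hb1 : b (1 : Fin 3) ∈ W := by
      rw [hb]
      intro j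
      fin_cases j
      show b.repr (b (1 : Fin 3)) (2 : Fin 3) = 0
      rw [b.repr_self]; simp
    refine any_case (b := b) A hinj hw (key_of h1 h2 hw) ?_
    have h20 : ∀ γ, R4 b hol γ 2 0 = 0 := fun γ =>
      (R4_lin (b := b) γ 2 0).trans ((hb _).1 (hW γ _ hb0) 0)
    have h21 : ∀ γ, R4 b hol γ 2 1 = 0 := fun γ =>
      (R4_lin (b := b) γ 2 1).trans ((hb _).1 (hW γ _ hb1) 0)
    have h30 : ∀ γ, R4 b hol γ 3 0 = 0 := fun γ => R4_3 (b := b) γ 0
    have h31 : ∀ γ, R4 b hol γ 3 1 = 0 := fun γ => R4_3 (b := b) γ 1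
    have h32 : ∀ γ, R4 b hol γ 3 2 = 0 := fun γ => R4_3 (b := b) γ 2
    intro γ i j hij
    fin_cases i <;> fin_cases j <;> simp [wP] at hij
    · exact h20 γ
    · exact h21 γ
    · exact h30 γ
    · exact h31 γ
    · exact h32 γ

end main

end Pool.Agent.Helper63.Rd
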