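import Pool.Agent.Helper63.Rd.Main

/-!
Project Rd (helper63): solvable normal subgroups.
-/

set_option autoImplicit false

open Set Filter Topology
open scoped Matrix commutatorElement

namespace Pool.Agent.Helper63.Rd

open Pool.Agent.Helper63.Mk
open Pool.Agent.Helper63.Ce (comm_one)
open Pool.Agent.W689.Mk (AffData)
open Pool.Agent.Y449.MK (Tower restrict tower_complete tower_good)

/-- commuting nilpotent perturbations of the identity have a common fixed vector -/
theorem common_fix {E ι : Type} [AddCommGroup E] [Module ℝ E] [FiniteDimensional ℝ E]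
    [Nontrivial E] (T : ι → (E →ₗ[ℝ] E)) (hc : ∀ i j v, T i (T j v) = T j (T i v))
    (hn : ∀ i, IsNilpotent (T i)) : ∃ v : E, v ≠ 0 ∧ ∀ i, T i v = 0 := by
  classical
  let P : Submodule ℝ E → Prop := fun U => U ≠ ⊥ ∧ ∀ i, ∀ v ∈ U, T i v ∈ U
  have hex : ∃ n : ℕ, ∃ U : Submodule ℝ E, P U ∧ Module.finrank ℝ U = n :=
    ⟨_, ⊤, ⟨top_ne_bot, fun i v _ => Submodule.mem_top⟩, rfl⟩
  obtain ⟨U, ⟨hU0, hU⟩, hUn⟩ := Nat.find_spec hex
  have hmin : ∀ U' : Submodule ℝ E, P U' → U' ≤ U → U' = U := by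
    intro U' hU' hle
    refine Submodule.eq_of_le_of_finrank_le hle ?_
    rw [hUn]
    exact Nat.find_min' hex ⟨U', hU', rfl⟩
  have hfix : ∀ i, ∀ v ∈ U, T i v = 0 := by
    intro i
    have h1 : U ⊓ LinearMap.ker (T i) = U := by
      refine hmin _ ⟨?_, ?_⟩ inf_le_left
      · -- nilpotent on `U`
        intro h0
        obtain ⟨v, hv, hv0⟩ := Submodule.exists_mem_ne_zero_of_ne_bot hU0
        obtain ⟨k, hk⟩ := hn i
        have h2 : ∀ m : ℕ, (T i ^ m) v ∈ U := by
          intro m
          induction m with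
          | zero => simpa using hv
          | succ m ih =>
            rw [pow_succ', Module.End.mul_apply]
            exact hU i _ ih
        have h3 : ∀ m : ℕ, (T i ^ m) v ≠ 0 := by
          intro m
          induction m with
          | zero => simpa using hv0
          | succ m ih =>
            intro h4
            rw [pow_succ', Module.End.mul_apply] at h4
            have h5 : (T i ^ m) v ∈ U ⊓ LinearMap.ker (T i) := ⟨h2 m, h4⟩
            rw [h0, Submodule.mem_bot] at h5
            exact ih h5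
        apply h3 k
        rw [hk]
        rfl
      · intro j v hv
        refine ⟨hU j v hv.1, ?_⟩
        show T i (T j v) = 0
        rw [hc, show T i v = 0 from hv.2, map_zero]
    intro v hv
    rw [← h1] at hv
    exact hv.2
  obtain ⟨v, hv, hv0⟩ := Submodule.exists_mem_ne_zero_of_ne_bot hU0
  exact ⟨v, hv0, fun i => hfix i v hv⟩

/-- the last nontrivial term of the derived series -/
theorem last_derived {H M : Type} [Group H] [Group M] (f : H →* M) (N : Subgroup H)
    (hN : N.Normal) (hs : Group.IsSolvable N) (hne : ∃ a ∈ N, f a ≠ 1) :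
    ∃ B : Subgroup H, B.Normal ∧ B ≤ N ∧ (∀ a ∈ B, ∀ b ∈ B, f a * f b = f b * f a) ∧
      ∃ a ∈ B, f a ≠ 1 := by
  classical
  let D : ℕ → Subgroup H := fun i => (derivedSeries N i).map N.subtype
  have hD0 : D 0 = N := by
    show (⊤ : Subgroup N).map N.subtype = N
    rw [← MonoidHom.range_eq_map, Subgroup.range_subtype]
  have hex : ∃ n, ∀ a ∈ D n, f a = 1 := by
    obtain ⟨n, hn⟩ := hs.solvable
    refine ⟨n, ?_⟩
    rintro _ ⟨a, ha, rfl⟩
    rw [hn] at ha
    rw [Subgroup.mem_bot.1 ha, map_one, map_one]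
  obtain ⟨n, hn⟩ : ∃ n, n = Nat.find hex := ⟨_, rfl⟩
  have h1 := Nat.find_spec hex
  rw [← hn] at h1
  have hn0 : n ≠ 0 := by
    rintro rfl
    rw [hD0] at h1
    obtain ⟨a, ha, ha1⟩ := hne
    exact ha1 (h1 a ha)
  obtain ⟨m, rfl⟩ := Nat.exists_eq_succ_of_ne_zero hn0
  have h2 : ¬ ∀ a ∈ D m, f a = 1 := Nat.find_min hex (by omega)
  push Not at h2
  refine ⟨D m, ?_, ?_, ?_, h2⟩
  · exact ConjAct.normal_of_characteristic_of_normal
  · rintro _ ⟨a, -, rfl⟩
    exact a.2
  · rintro _ ⟨a, ha, rfl⟩ _ ⟨b, hb, rfl⟩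
    have h3 : f (N.subtype ⁅a, b⁆) = 1 := h1 _ ⟨⁅a, b⁆, by
      rw [derivedSeries_succ]
      exact Subgroup.commutator_mem_commutator ha hb, rfl⟩
    have h4 : ⁅a, b⁆ * (b * a) = a * b := by
      rw [commutatorElement_def]; group
    rw [← map_mul, ← map_mul, ← map_mul, ← map_mul, ← h4, map_mul, map_mul, h3, one_mul]

section solv

variable {X E H : Type} [NormedAddCommGroup E] [NormedSpace ℝ E] [FiniteDimensional ℝ E]
  [Group H] [TopologicalSpace X] [T2Space X] [SecondCountableTopology X] [ConnectedSpace X]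
  [MulAction H X] {dev : X → E} {hol : H →* (E ≃ᵃ[ℝ] E)}

/-- **Irreducible holonomy.** -/
theorem irr_solv (A : AffData X H E dev hol) (hinj : Function.Injective dev)
    (hirr : ∀ U : Submodule ℝ E, (∀ γ, ∀ u ∈ U, (hol γ).linear u ∈ U) → U = ⊥ ∨ U = ⊤)
    (N : Subgroup H) (hN : N.Normal) (hs : Group.IsSolvable N) (hne : ∃ a ∈ N, hol a ≠ 1) :
    IsHomeomorph dev := by
  obtain ⟨B, hB, -, hBc, a0, ha0, ha1⟩ := last_derived hol N hN hs hne
  have hEn : Nontrivial E := by
    by_contra h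
    rw [not_nontrivial_iff_subsingleton] at h
    apply ha1
    apply AffineEquiv.ext
    intro v
    exact Subsingleton.elim _ _
  let _ : MeasurableSpace E := borel E
  have : BorelSpace E := ⟨rfl⟩
  have hU : ∀ a ∈ B, Pool.Agent.Results.MP_df2bd8_gt.CommensuratedSubgroups.Unipotent hol a := by
    intro a ha
    refine (Pool.Agent.Results.MP_df2bd8_gt.CommensuratedSubgroups.result E X H dev hol A ⊤ B
      inferInstance).unipotent ?_ ?_ a ha
    · intro a ha c hc' q
      exact congrArg (fun T : E ≃ᵃ[ℝ] E => T q) (hBc a ha c hc')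
    · intro γ _ a ha
      exact ⟨γ * a * γ⁻¹, hB.conj_mem a ha γ, fun q => rfl⟩
  have hlin : ∀ (T : E ≃ᵃ[ℝ] E) (q v : E), T (q + v) = T q + T.linear v := by
    intro T q v
    have := T.map_vadd q v
    rw [vadd_eq_add, vadd_eq_add, add_comm v q] at this
    rw [this, add_comm]
  -- the linear parts are unipotent
  let T : B → (E →ₗ[ℝ] E) := fun a => ((hol a).linear : E →ₗ[ℝ] E) - LinearMap.id
  have hT : ∀ (a : B) v, T a v = (hol a).linear v - v := fun a v => rfl
  have hTn : ∀ a, IsNilpotent (T a) := by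
    intro a
    obtain ⟨k, hk⟩ := hU a a.2
    refine ⟨k + 1, LinearMap.ext fun v => ?_⟩
    rw [pow_succ, Module.End.mul_apply, hT]
    have h1 := hk (0 + v)
    have h2 := hk 0
    have h3 : (hol a).linear v - v = (hol a (0 + v) - (0 + v)) - (hol a 0 - 0) := by
      rw [hlin]
      abel
    rw [h3, map_sub]
    have e1 : (T a ^ k) (hol a (0 + v) - (0 + v)) = 0 := h1
    have e2 : (T a ^ k) (hol a 0 - 0) = 0 := h2
    rw [e1, e2, sub_zero]
    rfl
  have hlc : ∀ (a b : B) v, (hol a).linear ((hol b).linear v) = (hol b).linear ((hol a).linear v) := by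
    intro a b v
    have h1 := hBc a a.2 b b.2
    have h2 := congrArg (fun T : E ≃ᵃ[ℝ] E => T.linear v) h1
    exact h2
  have hTc : ∀ (a b : B) v, T a (T b v) = T b (T a v) := by
    intro a b v
    rw [hT, hT, hT, hT, map_sub, map_sub, hlc a b v]
    abel
  obtain ⟨v0, hv0, hv⟩ := common_fix T hTc hTn
  -- the fixed vectors
  let U : Submodule ℝ E :=
    { carrier := {v | ∀ a ∈ B, (hol a).linear v = v}
      zero_mem' := by intro a _; exact map_zero _
      add_mem' := by
        intro x y hx hy a ha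
        rw [map_add, hx a ha, hy a ha]
      smul_mem' := by
        intro c x hx a ha
        rw [map_smul, hx a ha] }
  have hUinv : ∀ γ, ∀ u ∈ U, (hol γ).linear u ∈ U := by
    intro γ u hu a ha
    have h1 : a * γ = γ * (γ⁻¹ * a * γ) := by group
    have h2 : γ⁻¹ * a * γ ∈ B := by
      have := hB.conj_mem a ha γ⁻¹
      rwa [inv_inv] at this
    have h3 : (hol (a * γ)).linear u = (hol (γ * (γ⁻¹ * a * γ))).linear u := by rw [← h1]
    rw [map_mul, map_mul] at h3
    have h4 : (hol a).linear ((hol γ).linear u) =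
        (hol γ).linear ((hol (γ⁻¹ * a * γ)).linear u) := h3
    rw [h4, hu _ h2]
  have hUtop : U = ⊤ := by
    refine (hirr U hUinv).resolve_left fun h0 => hv0 ?_
    have h1 : v0 ∈ U := fun a ha => sub_eq_zero.1 (hv ⟨a, ha⟩)
    rw [h0, Submodule.mem_bot] at h1
    exact h1
  have htr : ∀ a ∈ B, ∀ q, hol a q - q = hol a 0 := by
    intro a ha q
    have h1 : q ∈ U := by rw [hUtop]; exact Submodule.mem_top
    have h2 := hlin (hol a) 0 q
    rw [zero_add, h1 a ha] at h2
    rw [h2]
    abel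
  -- the tower
  have h1 := tower_good A hinj ⊤ inferInstance 1
  obtain ⟨N', hG⟩ := h1
  have h2 : Tower hol ⊤ 1 = ⊤ := by
    refine (hirr _ fun γ u hu => hG.inv ⟨γ, Subgroup.mem_top _⟩ u hu).resolve_left fun h0 => ?_
    have h3 : hol a0 0 ∈ Tower hol ⊤ 1 := by
      show hol a0 0 ∈ Tower hol ⊤ 0 ⊔ _
      refine Submodule.mem_sup_right (Submodule.subset_span ⟨a0, Subgroup.mem_top _, fun q => ?_⟩)
      rw [htr a0 ha0, sub_self]
      exact Submodule.zero_mem _
    rw [h0, Submodule.mem_bot] at h3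
    apply ha1
    apply AffineEquiv.ext
    intro q
    have h4 := htr a0 ha0 q
    rw [h3] at h4
    exact sub_eq_zero.1 h4
  exact tower_complete A hinj ⊤ inferInstance 1 fun γ _ δ _ q => by
    rw [h2]; exact Submodule.mem_top

/-- infinite subgroups have nontrivial holonomy -/
theorem inf_hol (A : AffData X H E dev hol) (hinj : Function.Injective dev) (N : Subgroup H)
    (hN : Infinite N) : ∃ a ∈ N, hol a ≠ 1 := by
  by_contra hcon
  push Not at hcon
  obtain ⟨x⟩ : Nonempty X := inferInstance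
  have h1 : {γ : H | ∃ y ∈ ({x} : Set X), γ • y ∈ ({x} : Set X)}.Finite :=
    A.pd {x} isCompact_singleton
  have h2 : (N : Set H) ⊆ {γ : H | ∃ y ∈ ({x} : Set X), γ • y ∈ ({x} : Set X)} := by
    intro γ hγ
    refine ⟨x, rfl, hinj ?_⟩
    rw [A.equi, hcon γ hγ]
    rfl
  exact (Set.infinite_coe_iff.1 hN) (h1.subset h2)

/-- **Solvable normal subgroups.** -/
theorem solv_main (h1 : S_ALL) (h2 : S_ALP) (A : AffData X H E dev hol)
    (hinj : Function.Injective dev) (N : Subgroup H) (hN : N.Normal) (hs : Group.IsSolvable N)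
    (hinf : Infinite N) (h : Module.finrank ℝ E = 3 ∨
      ∀ U : Submodule ℝ E, (∀ γ, ∀ u ∈ U, (hol γ).linear u ∈ U) → U = ⊥ ∨ U = ⊤) :
    IsHomeomorph dev := by
  by_cases hirr : ∀ U : Submodule ℝ E, (∀ γ, ∀ u ∈ U, (hol γ).linear u ∈ U) → U = ⊥ ∨ U = ⊤
  · exact irr_solv A hinj hirr N hN hs (inf_hol A hinj N hinf)
  · have hE := h.resolve_right hirr
    push Not at hirr
    obtain ⟨W, hW, hW0, hW1⟩ := hirr
    exact main h1 h2 A hinj hE W hW0 hW1 hW

end solv

end Pool.Agent.Helper63.Rd
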