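import Pool.Agent.Helper63.Rd.Defs

/-!
Project Rd (helper63): normal subgroups of unipotent block triangular matrices and their logarithms.
-/

set_option autoImplicit false

open Set Filter Topology
open scoped Matrix commutatorElement

namespace Pool.Agent.Helper63.Rd

open Pool.Agent.Helper63.Mk (V2 M2 Wild)

theorem wL_le (i : Fin 4) : wL i ≤ 2 := by fin_cases i <;> simp [wL]

theorem wP_le (i : Fin 4) : wP i ≤ 2 := by fin_cases i <;> simp [wP]

section su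

variable {w : Fin 4 → ℕ}

theorem SU.add {M N : M4} (hM : SU w M) (hN : SU w N) : SU w (M + N) := by
  intro i j h
  rw [Matrix.add_apply, hM i j h, hN i j h, add_zero]

theorem SU.sub {M N : M4} (hM : SU w M) (hN : SU w N) : SU w (M - N) := by
  intro i j h
  rw [Matrix.sub_apply, hM i j h, hN i j h, sub_zero]

theorem SU.smul {M : M4} (hM : SU w M) (c : ℝ) : SU w (c • M) := by
  intro i j h
  rw [Matrix.smul_apply, hM i j h, smul_zero]

theorem SU.mul {M N : M4} (hM : SU w M) (hN : SU w N) : SU w (M * N) := by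
  intro i j h
  rw [Matrix.mul_apply]
  refine Finset.sum_eq_zero fun k _ => ?_
  rcases le_or_gt (w i) (w k) with h1 | h1
  · rw [hM i k h1, zero_mul]
  · rw [hN k j (by omega), mul_zero]

theorem t3 (hw : ∀ i, w i ≤ 2) {M N P : M4} (hM : SU w M) (hN : SU w N) (hP : SU w P) :
    M * N * P = 0 := by
  ext i j
  rw [Matrix.mul_apply, Matrix.zero_apply]
  refine Finset.sum_eq_zero fun k _ => ?_
  rw [Matrix.mul_apply, Finset.sum_mul]
  refine Finset.sum_eq_zero fun l _ => ?_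
  have h2 := hw i
  rcases le_or_gt (w i) (w l) with h1 | h1
  · rw [hM i l h1, zero_mul, zero_mul]
  rcases le_or_gt (w l) (w k) with h3 | h3
  · rw [hN l k h3, mul_zero, zero_mul]
  · rw [hP k j (by omega), mul_zero]

end su

section shapes

variable {H : Type} [Group H] {R : H →* M4} {χ : H →* ℝ} {D : H →* M2}

structure ShL (R : H →* M4) (χ : H →* ℝ) (D : H →* M2) (γ : H) : Prop where
  a10 : R γ 1 0 = 0
  a20 : R γ 2 0 = 0
  a30 : R γ 3 0 = 0
  a31 : R γ 3 1 = 0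
  a32 : R γ 3 2 = 0
  a00 : R γ 0 0 = χ γ
  a11 : R γ 1 1 = D γ 0 0
  a12 : R γ 1 2 = D γ 0 1
  a21 : R γ 2 1 = D γ 1 0
  a22 : R γ 2 2 = D γ 1 1
  a33 : R γ 3 3 = 1

structure ShP (R : H →* M4) (χ : H →* ℝ) (D : H →* M2) (γ : H) : Prop where
  a20 : R γ 2 0 = 0
  a21 : R γ 2 1 = 0
  a30 : R γ 3 0 = 0
  a31 : R γ 3 1 = 0
  a32 : R γ 3 2 = 0
  a22 : R γ 2 2 = χ γ
  a00 : R γ 0 0 = D γ 0 0
  a01 : R γ 0 1 = D γ 0 1
  a10 : R γ 1 0 = D γ 1 0
  a11 : R γ 1 1 = D γ 1 1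
  a33 : R γ 3 3 = 1

theorem shL (B : BlL R χ D) (γ : H) : ShL R χ D γ where
  a10 := B.tri γ 1 0 (by simp [wL])
  a20 := B.tri γ 2 0 (by simp [wL])
  a30 := B.tri γ 3 0 (by simp [wL])
  a31 := B.tri γ 3 1 (by simp [wL])
  a32 := B.tri γ 3 2 (by simp [wL])
  a00 := B.chr γ
  a11 := B.blk γ 0 0
  a12 := B.blk γ 0 1
  a21 := B.blk γ 1 0
  a22 := B.blk γ 1 1
  a33 := B.one γ

theorem shP (B : BlP R χ D) (γ : H) : ShP R χ D γ where
  a20 := B.tri γ 2 0 (by simp [wP])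
  a21 := B.tri γ 2 1 (by simp [wP])
  a30 := B.tri γ 3 0 (by simp [wP])
  a31 := B.tri γ 3 1 (by simp [wP])
  a32 := B.tri γ 3 2 (by simp [wP])
  a22 := B.chr γ
  a00 := B.blk γ 0 0
  a01 := B.blk γ 0 1
  a10 := B.blk γ 1 0
  a11 := B.blk γ 1 1
  a33 := B.one γ

/-- one of the two cases -/
def Cs (w : Fin 4 → ℕ) (u : Fin 2 → Fin 4) (k : Fin 4) : Prop :=
  (w = wL ∧ u = ![1, 2] ∧ k = 0) ∨ (w = wP ∧ u = ![0, 1] ∧ k = 2)

variable {w : Fin 4 → ℕ} {u : Fin 2 → Fin 4} {k : Fin 4}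

theorem Cs.le (hw : Cs w u k) (i : Fin 4) : w i ≤ 2 := by
  rcases hw with ⟨rfl, -, -⟩ | ⟨rfl, -, -⟩
  · exact wL_le i
  · exact wP_le i

theorem su_of (hw : Cs w u k) (B : Bl w u k R χ D) {a : H} (hD : D a = 1) (hχ : χ a = 1) :
    SU w (R a - 1) := by
  rcases hw with ⟨rfl, rfl, rfl⟩ | ⟨rfl, rfl, rfl⟩
  · obtain ⟨a10, a20, a30, a31, a32, a00, a11, a12, a21, a22, a33⟩ := shL B a
    rw [hD] at a11 a12 a21 a22
    rw [hχ] at a00
    intro i j hij
    fin_cases i <;> fin_cases j <;> simp [wL] at hij <;> simp [*]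
  · obtain ⟨a20, a21, a30, a31, a32, a22, a00, a01, a10, a11, a33⟩ := shP B a
    rw [hD] at a00 a01 a10 a11
    rw [hχ] at a22
    intro i j hij
    fin_cases i <;> fin_cases j <;> simp [wP] at hij <;> simp [*]

theorem trace_eq (hw : Cs w u k) (B : Bl w u k R χ D) (γ : H) :
    Matrix.trace (R γ) = χ γ + (D γ 0 0 + D γ 1 1) + 1 := by
  rcases hw with ⟨rfl, rfl, rfl⟩ | ⟨rfl, rfl, rfl⟩
  · obtain ⟨a10, a20, a30, a31, a32, a00, a11, a12, a21, a22, a33⟩ := shL B γ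
    rw [Matrix.trace, Fin.sum_univ_four]
    simp [*]
    ring
  · obtain ⟨a20, a21, a30, a31, a32, a22, a00, a01, a10, a11, a33⟩ := shP B γ
    rw [Matrix.trace, Fin.sum_univ_four]
    simp [*]
    ring

end shapes

/-- the normalised matrices -/
noncomputable def Dh {H : Type} [Group H] (χ : H →* ℝ) (D : H →* M2) (hpos : ∀ γ, 0 < χ γ) :
    H →* M2 where
  toFun γ := √(χ γ) • D γ
  map_one' := by rw [map_one, map_one, Real.sqrt_one, one_smul]
  map_mul' γ δ := by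
    rw [map_mul, map_mul, Real.sqrt_mul (hpos γ).le, smul_mul_smul_comm]

section logs

variable {H : Type} [Group H] {R : H →* M4} {χ : H →* ℝ} {D : H →* M2}
  {w : Fin 4 → ℕ} {u : Fin 2 → Fin 4} {k : Fin 4}

theorem Dh_apply (hpos : ∀ γ, 0 < χ γ) (γ : H) : Dh χ D hpos γ = √(χ γ) • D γ := rfl

theorem Dh_eq (hpos : ∀ γ, 0 < χ γ) {γ : H} (h : χ γ = 1) : Dh χ D hpos γ = D γ := by
  rw [Dh_apply, h, Real.sqrt_one, one_smul]

theorem Dh_ker (hpos : ∀ γ, 0 < χ γ) {γ : H} (h : Dh χ D hpos γ = 1) :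
    D γ = (√(χ γ))⁻¹ • (1 : M2) := by
  have h0 : √(χ γ) ≠ 0 := (Real.sqrt_pos.2 (hpos γ)).ne'
  rw [← h, Dh_apply, smul_smul, inv_mul_cancel₀ h0, one_smul]

/-- the logarithm -/
noncomputable def lg (M : M4) : M4 := (M - 1) - (1 / 2 : ℝ) • ((M - 1) * (M - 1))

theorem lg_su {M : M4} (h : SU w (M - 1)) : SU w (lg M) := h.sub ((h.mul h).smul _)

theorem lg_mul (hw : ∀ i, w i ≤ 2) {M N : M4} (hM : SU w (M - 1)) (hN : SU w (N - 1))
    (hc : M * N = N * M) : lg (M * N) = lg M + lg N := by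
  obtain ⟨x, hx⟩ : ∃ x, x = M - 1 := ⟨_, rfl⟩
  obtain ⟨y, hy⟩ : ∃ y, y = N - 1 := ⟨_, rfl⟩
  have eM : M = 1 + x := by rw [hx]; abel
  have eN : N = 1 + y := by rw [hy]; abel
  rw [← hx] at hM
  rw [← hy] at hN
  have hxy : y * x = x * y := by
    rw [eM, eN] at hc
    have h1 : (1 + x) * (1 + y) = 1 + x + y + x * y := by noncomm_ring
    have h2 : (1 + y) * (1 + x) = 1 + x + y + y * x := by noncomm_ring
    rw [h1, h2] at hc
    exact (add_left_cancel hc).symm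
  have hxyy := t3 hw hM hN hN
  have hxxy := t3 hw hM hM hN
  have h3 : M * N - 1 = x + y + x * y := by rw [eM, eN]; noncomm_ring
  have h4 : (x + y + x * y) * (x + y + x * y) = x * x + y * y + (2 : ℝ) • (x * y) := by
    have e1 : (x + y + x * y) * (x + y + x * y) = x * x + y * y + x * y + y * x +
      (x * x * y + y * x * y + x * y * x + x * y * y + x * y * x * y) := by noncomm_ring
    have e2 : y * x * y = 0 := by rw [hxy, hxyy]
    have e3 : x * y * x = 0 := by rw [mul_assoc, hxy, ← mul_assoc, hxxy]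
    rw [e1, hxxy, e2, e3, hxyy, hxy, zero_mul, two_smul]
    abel
  rw [lg, h3, h4, lg, lg, ← hx, ← hy, smul_add, smul_add, smul_smul]
  norm_num
  abel

theorem lg_one : lg 1 = 0 := by simp [lg]

theorem lg_conj {M A B : M4} (hAB : A * B = 1) (hBA : B * A = 1) :
    lg (A * M * B) = A * lg M * B := by
  have h1 : A * M * B - 1 = A * (M - 1) * B := by
    rw [mul_sub, sub_mul, mul_one, hAB]
  have h2 : A * (M - 1) * B * (A * (M - 1) * B) = A * ((M - 1) * (M - 1)) * B := by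
    calc A * (M - 1) * B * (A * (M - 1) * B) = A * (M - 1) * (B * A) * (M - 1) * B := by
          simp only [mul_assoc]
      _ = _ := by rw [hBA, mul_one]; simp only [mul_assoc]
  have h3 : ∀ X Y : M4, A * (X - (1 / 2 : ℝ) • Y) * B = A * X * B - (1 / 2 : ℝ) • (A * Y * B) := by
    intro X Y
    rw [mul_sub, sub_mul, mul_smul_comm, smul_mul_assoc]
  rw [lg, h1, h2, lg, h3]

theorem lg_comm {M N : M4} (hc : M * N = N * M) : lg M * lg N = lg N * lg M := by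
  have h : Commute M N := hc
  have h1 : Commute (M - 1) (N - 1) := (h.sub_left (Commute.one_left N)).sub_right
    (Commute.one_right _)
  have h2 : Commute (lg M) (lg N) := by
    unfold lg
    refine Commute.sub_left (Commute.sub_right h1 ?_) (Commute.sub_right ?_ ?_)
    · exact (h1.mul_right h1).smul_right _
    · exact (h1.mul_left h1).smul_left _
    · exact ((h1.mul_left h1).mul_right (h1.mul_left h1)).smul_left _ |>.smul_right _
  exact h2.eq

theorem lg_inv' (hw : ∀ i, w i ≤ 2) {M : M4} (h : SU w (M - 1)) :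
    M - 1 = lg M + (1 / 2 : ℝ) • (lg M * lg M) := by
  obtain ⟨x, hx⟩ : ∃ x, x = M - 1 := ⟨_, rfl⟩
  rw [← hx] at h
  have h3 := t3 hw h h h
  have h4 : lg M * lg M = x * x := by
    rw [lg, ← hx]
    have e1 : (x - (1 / 2 : ℝ) • (x * x)) * (x - (1 / 2 : ℝ) • (x * x)) =
        x * x - (1 / 2 : ℝ) • (x * x * x) - (1 / 2 : ℝ) • (x * x * x) +
          ((1 / 2 : ℝ) * (1 / 2)) • (x * x * x * x) := by
      rw [sub_mul, mul_sub, mul_sub, mul_smul_comm, smul_mul_assoc, smul_mul_smul_comm]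
      simp only [mul_assoc]
      abel
    rw [e1, h3]
    simp
  rw [h4, lg, ← hx]
  abel

/-- the logarithms of a normal subgroup -/
noncomputable def Lg (hw : ∀ i, w i ≤ 2) (N : Subgroup H) (hs : ∀ a ∈ N, SU w (R a - 1))
    (hc : ∀ a ∈ N, ∀ b ∈ N, R a * R b = R b * R a) : AddSubgroup M4 where
  carrier := {x | ∃ a ∈ N, x = lg (R a)}
  zero_mem' := ⟨1, N.one_mem, by rw [map_one, lg_one]⟩
  add_mem' := by
    rintro _ _ ⟨a, ha, rfl⟩ ⟨b, hb, rfl⟩
    exact ⟨a * b, N.mul_mem ha hb, by rw [map_mul, lg_mul hw (hs a ha) (hs b hb) (hc a ha b hb)]⟩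
  neg_mem' := by
    rintro _ ⟨a, ha, rfl⟩
    refine ⟨a⁻¹, N.inv_mem ha, ?_⟩
    have h1 := lg_mul hw (hs a ha) (hs _ (N.inv_mem ha)) (hc a ha _ (N.inv_mem ha))
    rw [← map_mul, mul_inv_cancel, map_one, lg_one] at h1
    exact (eq_neg_of_add_eq_zero_right h1.symm).symm

theorem exists_La (hw : ∀ i, w i ≤ 2) (N : Subgroup H) (hN : N.Normal)
    (hs : ∀ a ∈ N, SU w (R a - 1)) (hc : ∀ a ∈ N, ∀ b ∈ N, R a * R b = R b * R a)
    (hd : ∃ ε : ℝ, 0 < ε ∧ ∀ γ, (∀ i j, |R γ i j - (1 : M4) i j| < ε) → R γ = 1)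
    (hne : ∃ a ∈ N, R a ≠ 1) : ∃ L : AddSubgroup M4, La w R L ∧ ∃ x ∈ L, x ≠ 0 := by
  refine ⟨Lg hw N hs hc, ⟨?_, ?_, ?_, ?_⟩, ?_⟩
  · rintro _ ⟨a, ha, rfl⟩
    exact lg_su (hs a ha)
  · rintro _ ⟨a, ha, rfl⟩ _ ⟨b, hb, rfl⟩
    exact lg_comm (hc a ha b hb)
  · rintro γ _ ⟨a, ha, rfl⟩
    refine ⟨γ * a * γ⁻¹, hN.conj_mem a ha γ, ?_⟩
    rw [map_mul, map_mul, lg_conj]
    · rw [← map_mul, mul_inv_cancel, map_one]
    · rw [← map_mul, inv_mul_cancel, map_one]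
  · obtain ⟨ε, hε, hd⟩ := hd
    refine ⟨min 1 (ε / 3), by positivity, ?_⟩
    rintro _ ⟨a, ha, rfl⟩ hx
    have h1 : R a = 1 := by
      apply hd
      intro i j
      have h2 : R a i j - (1 : M4) i j = (R a - 1) i j := rfl
      have h3 : ∀ i j, |lg (R a) i j| < 1 := fun i j => (hx i j).trans_le (min_le_left _ _)
      have h4 : ∀ i j, |lg (R a) i j| < ε / 3 := fun i j => (hx i j).trans_le (min_le_right _ _)
      rw [h2, lg_inv' hw (hs a ha), Matrix.add_apply, Matrix.smul_apply, Matrix.mul_apply,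
        smul_eq_mul]
      have h5 : |∑ l, lg (R a) i l * lg (R a) l j| ≤ 4 * (ε / 3) := by
        refine (Finset.abs_sum_le_sum_abs _ _).trans ?_
        have h6 : ∀ l ∈ Finset.univ, |lg (R a) i l * lg (R a) l j| ≤ ε / 3 := by
          intro l _
          rw [abs_mul]
          have := h3 i l
          have := h4 l j
          have := abs_nonneg (lg (R a) i l)
          have := abs_nonneg (lg (R a) l j)
          nlinarith
        refine (Finset.sum_le_sum h6).trans ?_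
        simp
      calc |lg (R a) i j + 1 / 2 * ∑ l, lg (R a) i l * lg (R a) l j|
          ≤ |lg (R a) i j| + |1 / 2 * ∑ l, lg (R a) i l * lg (R a) l j| := abs_add_le _ _
        _ = |lg (R a) i j| + 1 / 2 * |∑ l, lg (R a) i l * lg (R a) l j| := by
            rw [abs_mul (1 / 2 : ℝ)]; norm_num
        _ < ε / 3 + 1 / 2 * (4 * (ε / 3)) := by
            have := h4 i j
            linarith
        _ = ε := by ring
    rw [h1, lg_one]
  · obtain ⟨a, ha, ha1⟩ := hne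
    refine ⟨_, ⟨a, ha, rfl⟩, fun h0 => ha1 ?_⟩
    have h1 := lg_inv' hw (hs a ha)
    rw [h0, mul_zero, smul_zero, add_zero] at h1
    exact sub_eq_zero.1 h1

end logs

section normal

variable {H : Type} [Group H] {R : H →* M4} {χ : H →* ℝ} {D : H →* M2}
  {w : Fin 4 → ℕ} {u : Fin 2 → Fin 4} {k : Fin 4}

/-- commutators of strictly triangular elements -/
theorem comm_su (hw : ∀ i, w i ≤ 2) {g h : H} (hg : SU w (R g - 1)) (hh : SU w (R h - 1)) :
    ∃ Z : M4, R ⁅g, h⁆ = 1 + Z ∧ ∀ x, SU w x → Z * x = 0 ∧ x * Z = 0 := by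
  obtain ⟨x, hx⟩ : ∃ x, x = R g - 1 := ⟨_, rfl⟩
  obtain ⟨y, hy⟩ : ∃ y, y = R h - 1 := ⟨_, rfl⟩
  have eM : R g = 1 + x := by rw [hx]; abel
  have eN : R h = 1 + y := by rw [hy]; abel
  rw [← hx] at hg
  rw [← hy] at hh
  have hZ : ∀ z, SU w z → (x * y - y * x) * z = 0 ∧ z * (x * y - y * x) = 0 := by
    intro z hz
    rw [sub_mul, mul_sub, t3 hw hg hh hz, t3 hw hh hg hz, ← mul_assoc, ← mul_assoc,
      t3 hw hz hg hh, t3 hw hz hh hg, sub_zero]
    exact ⟨rfl, rfl⟩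
  refine ⟨x * y - y * x, ?_, hZ⟩
  have h1 : (1 + (x * y - y * x)) * R (h * g) = R (g * h) := by
    rw [map_mul, map_mul, eM, eN]
    have e1 : (1 + (x * y - y * x)) * ((1 + y) * (1 + x)) = (1 + y) * (1 + x) +
        (x * y - y * x) + (x * y - y * x) * x + (x * y - y * x) * y +
          (x * y - y * x) * y * x := by noncomm_ring
    rw [e1, (hZ x hg).1, (hZ y hh).1, zero_mul]
    noncomm_ring
  have h2 : ⁅g, h⁆ * (h * g) = g * h := by
    rw [commutatorElement_def]; group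
  have h3 : R ⁅g, h⁆ * R (h * g) = (1 + (x * y - y * x)) * R (h * g) := by
    rw [h1, ← map_mul, h2]
  calc R ⁅g, h⁆ = R ⁅g, h⁆ * R (h * g) * R (h * g)⁻¹ := by
        rw [mul_assoc, ← map_mul, mul_inv_cancel, map_one, mul_one]
    _ = (1 + (x * y - y * x)) * R (h * g) * R (h * g)⁻¹ := by rw [h3]
    _ = _ := by rw [mul_assoc, ← map_mul, mul_inv_cancel, map_one, mul_one]

theorem comm_of_one {g h : H} (hgh : R ⁅g, h⁆ = 1) : R g * R h = R h * R g := by
  have h2 : ⁅g, h⁆ * (h * g) = g * h := by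
    rw [commutatorElement_def]; group
  rw [← map_mul, ← h2, map_mul, hgh, one_mul, map_mul]

/-- the centraliser -/
def Cz (R : H →* M4) (S : Set H) : Subgroup H where
  carrier := {a | ∀ b ∈ S, R a * R b = R b * R a}
  one_mem' := by intro b _; rw [map_one, one_mul, mul_one]
  mul_mem' := by
    intro a c ha hc b hb
    rw [map_mul, mul_assoc, hc b hb, ← mul_assoc, ha b hb, mul_assoc]
  inv_mem' := by
    intro a ha b hb
    have h1 := ha b hb
    calc R a⁻¹ * R b = R a⁻¹ * R b * (R a * R a⁻¹) := by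
          rw [← map_mul R a, mul_inv_cancel, map_one, mul_one]
      _ = R a⁻¹ * (R b * R a) * R a⁻¹ := by simp only [mul_assoc]
      _ = R a⁻¹ * (R a * R b) * R a⁻¹ := by rw [h1]
      _ = (R a⁻¹ * R a) * R b * R a⁻¹ := by simp only [mul_assoc]
      _ = R b * R a⁻¹ := by rw [← map_mul, inv_mul_cancel, map_one, one_mul]

/-- a normal subgroup of commuting strictly triangular elements -/
theorem exists_N (hw : Cs w u k) (B : Bl w u k R χ D)
    (hU : ∀ N : Subgroup H, N.Normal → (∀ a ∈ N, ∀ b ∈ N, R a * R b = R b * R a) →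
      ∀ a ∈ N, IsNilpotent (R a - 1))
    (hK : ∃ γ, Dh χ D B.pos γ = 1 ∧ R γ ≠ 1) :
    ∃ N : Subgroup H, N.Normal ∧ (∀ a ∈ N, ∀ b ∈ N, R a * R b = R b * R a) ∧
      (∀ a ∈ N, SU w (R a - 1)) ∧ ∃ a ∈ N, R a ≠ 1 := by
  obtain ⟨K, hKd⟩ : ∃ K, K = (Dh χ D B.pos).ker := ⟨_, rfl⟩
  have hKn : K.Normal := by rw [hKd]; infer_instance
  have hKm : ∀ γ, γ ∈ K ↔ Dh χ D B.pos γ = 1 := by
    intro γ; rw [hKd]; exact MonoidHom.mem_ker
  have hchar : ∀ c ∈ ⁅K, K⁆, χ c = 1 := by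
    intro c hc
    have h : ⁅K, K⁆ ≤ χ.ker := by
      rw [Subgroup.commutator_le]
      intro g _ h _
      rw [MonoidHom.mem_ker, commutatorElement_def, map_mul, map_mul, map_mul,
        mul_right_comm (χ g), ← map_mul, mul_inv_cancel, map_one, one_mul, ← map_mul,
        mul_inv_cancel, map_one]
    exact h hc
  have hK1K : ⁅K, K⁆ ≤ K := Subgroup.commutator_le_left K K
  have hK1 : ∀ a ∈ ⁅K, K⁆, SU w (R a - 1) := by
    intro a ha
    have h1 := hchar a ha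
    have h2 := (hKm a).1 (hK1K ha)
    rw [Dh_eq _ h1] at h2
    exact su_of hw B h2 h1
  by_cases c2 : ∃ a ∈ ⁅⁅K, K⁆, ⁅K, K⁆⁆, R a ≠ 1
  · have hle : ⁅⁅K, K⁆, ⁅K, K⁆⁆ ≤ Cz R (⁅K, K⁆ : Subgroup H) := by
      rw [Subgroup.commutator_le]
      intro g hg h hh b hb
      obtain ⟨Z, hZ, hZ0⟩ := comm_su (R := R) hw.le (hK1 g hg) (hK1 h hh)
      obtain ⟨e1, e2⟩ := hZ0 _ (hK1 b hb)
      rw [mul_sub, mul_one] at e1
      rw [sub_mul, one_mul] at e2
      rw [hZ, add_mul, mul_add, one_mul, mul_one, sub_eq_zero.1 e1, sub_eq_zero.1 e2]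
    have hle2 : ⁅⁅K, K⁆, ⁅K, K⁆⁆ ≤ ⁅K, K⁆ := Subgroup.commutator_le_left _ _
    exact ⟨⁅⁅K, K⁆, ⁅K, K⁆⁆, inferInstance, fun a ha b hb => hle ha b (hle2 hb),
      fun a ha => hK1 a (hle2 ha), c2⟩
  push Not at c2
  by_cases c1 : ∃ a ∈ ⁅K, K⁆, R a ≠ 1
  · exact ⟨⁅K, K⁆, inferInstance, fun a ha b hb =>
      comm_of_one (c2 _ (Subgroup.commutator_mem_commutator ha hb)), hK1, c1⟩
  push Not at c1
  have hcK : ∀ a ∈ K, ∀ b ∈ K, R a * R b = R b * R a := fun a ha b hb =>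
    comm_of_one (c1 _ (Subgroup.commutator_mem_commutator ha hb))
  obtain ⟨γ, hγ, hγ1⟩ := hK
  refine ⟨K, hKn, hcK, fun a ha => ?_, γ, (hKm γ).2 hγ, hγ1⟩
  have h1 := hU K hKn hcK a ha
  have h2 := Matrix.isNilpotent_trace_of_isNilpotent h1
  have h3 : Matrix.trace (R a - 1) = 0 := h2.eq_zero
  have h4 := Dh_ker B.pos ((hKm a).1 ha)
  rw [Matrix.trace_sub, trace_eq hw B, h4, Matrix.trace_one] at h3
  have hs : 0 < √(χ a) := Real.sqrt_pos.2 (B.pos a)
  have hs2 : √(χ a) ^ 2 = χ a := Real.sq_sqrt (B.pos a).le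
  have hs1 : √(χ a) = 1 := by
    obtain ⟨s, hsd⟩ : ∃ s, s = √(χ a) := ⟨_, rfl⟩
    rw [← hsd] at hs hs2 h3 ⊢
    simp at h3
    rw [← hs2] at h3
    have h5 : s ^ 3 - 3 * s + 2 = 0 := by
      field_simp at h3
      nlinarith
    have h6 : (s - 1) ^ 2 * (s + 2) = 0 := by nlinarith
    rcases mul_eq_zero.1 h6 with h7 | h7
    · have := pow_eq_zero_iff (two_ne_zero) |>.1 h7
      linarith
    · linarith
  have hχ : χ a = 1 := by rw [← hs2, hs1, one_pow]
  refine su_of hw B ?_ hχ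
  rw [h4, hs1, inv_one, one_smul]

/-- **The kernel.** -/
theorem ker_triv (hw : Cs w u k) (B : Bl w u k R χ D)
    (hU : ∀ N : Subgroup H, N.Normal → (∀ a ∈ N, ∀ b ∈ N, R a * R b = R b * R a) →
      ∀ a ∈ N, IsNilpotent (R a - 1))
    (hd : ∃ ε : ℝ, 0 < ε ∧ ∀ γ, (∀ i j, |R γ i j - (1 : M4) i j| < ε) → R γ = 1)
    (key : ∀ L : AddSubgroup M4, La w R L → ∀ x ∈ L, x = 0) {γ : H}
    (hγ : Dh χ D B.pos γ = 1) : R γ = 1 := by
  by_contra hne
  obtain ⟨N, hN, hc, hs, ha⟩ := exists_N hw B hU ⟨γ, hγ, hne⟩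
  obtain ⟨L, hL, x, hx, hx0⟩ := exists_La hw.le N hN hs hc hd ha
  exact hx0 (key L hL x hx)

end normal

end Pool.Agent.Helper63.Rd
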