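import Pool.Agent.Helper63.Rd.Flg

/-!
Project Rd (helper63): the wild case is impossible.
-/

set_option autoImplicit false

open Set Filter Topology
open scoped Matrix commutatorElement

namespace Pool.Agent.Helper63.Rd

open Pool.Agent.Helper63.Mk
open Pool.Agent.W689.Mk (AffData)

section fin

variable {H : Type} [Group H] {D : H →* M2}

/-- finiteness of the bounded elements -/
theorem fin_bdd' (hD : Wild D) {ε : ℝ} (hε : 0 < ε) (hfin : {γ : H | ‖rl D γ - 1‖ < ε}.Finite)
    (M : ℝ) : {γ : H | ∀ i j, |D γ i j| ≤ M}.Finite := by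
  by_contra hcon
  have hinf : {γ : H | ∀ i j, |D γ i j| ≤ M}.Infinite := hcon
  let f := hinf.natEmbedding
  have hf : ∀ n i j, |D (f n : H) i j| ≤ M := fun n => (f n).2
  let u : ℕ → (Fin 2 → Fin 2 → ℝ) := fun n i j => D (f n : H) i j
  have hu : ∀ n, u n ∈ Metric.closedBall (0 : Fin 2 → Fin 2 → ℝ) |M| := by
    intro n
    rw [mem_closedBall_zero_iff, pi_norm_le_iff_of_nonneg (abs_nonneg _)]
    intro i
    rw [pi_norm_le_iff_of_nonneg (abs_nonneg _)]
    intro j
    exact (hf n i j).trans (le_abs_self M)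
  obtain ⟨X, -, φ, hφ, hlim⟩ := (isCompact_closedBall _ _).tendsto_subseq hu
  have hlim' : Tendsto (fun n => D (f (φ n) : H)) atTop (𝓝 (Matrix.of X)) := hlim
  have hdet : |(Matrix.of X : M2).det| = 1 := by
    have h1 := ((det_cont.abs).tendsto (Matrix.of X)).comp hlim'
    have h2 : Tendsto (fun n => |(D (f (φ n) : H)).det|) atTop (𝓝 1) := by
      simp only [hD.det]
      exact tendsto_const_nhds
    exact tendsto_nhds_unique h1 h2
  have hXX : (Matrix.of X : M2).det * (Matrix.of X : M2).det = 1 := by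
    rw [← abs_mul_abs_self, hdet, one_mul]
  have h1 : Tendsto (fun p : ℕ × ℕ => D ((f (φ p.1) : H)⁻¹ * (f (φ p.2) : H)))
      (atTop ×ˢ atTop) (𝓝 1) := by
    have hadj : Continuous fun A : M2 => A.det • A.adjugate := by
      exact det_cont.smul continuous_id.matrix_adjugate
    have h2 := ((hadj.tendsto (Matrix.of X)).comp hlim').comp
      (tendsto_fst (f := (atTop : Filter ℕ)) (g := (atTop : Filter ℕ)))
    have h3 := hlim'.comp (tendsto_snd (f := (atTop : Filter ℕ)) (g := (atTop : Filter ℕ)))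
    have h4 := h2.mul h3
    rw [smul_mul_assoc, Matrix.adjugate_mul, smul_smul, hXX, one_smul] at h4
    refine h4.congr fun n => ?_
    rw [map_mul, D_inv_adj hD]
    rfl
  have h2 : Tendsto (fun p : ℕ × ℕ => ‖rl D ((f (φ p.1) : H)⁻¹ * (f (φ p.2) : H)) - 1‖)
      (atTop ×ˢ atTop) (𝓝 0) := by
    have h3 : Continuous fun A : M2 => ‖aff A 0 1 - 1‖ := by
      have h4 : Continuous fun A : M2 => aff A 0 1 :=
        aff_cont continuous_id continuous_const 1
      exact (h4.sub continuous_const).norm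
    have h4 := (h3.tendsto 1).comp h1
    rw [aff_one, sub_self, norm_zero] at h4
    exact h4
  have h3 := h2.eventually_lt_const hε
  rw [prod_atTop_atTop_eq, eventually_atTop] at h3
  obtain ⟨⟨a, b⟩, h3⟩ := h3
  -- infinitely many elements
  have hinj : Function.Injective fun n : ℕ => (f (φ a) : H)⁻¹ * (f (φ (b + n)) : H) := by
    intro m n hmn
    have h4 : (f (φ (b + m)) : H) = (f (φ (b + n)) : H) := mul_left_cancel hmn
    have h5 := hφ.injective (f.injective (Subtype.ext h4))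
    omega
  refine hfin.not_infinite (Set.infinite_of_injective_forall_mem hinj fun n => ?_)
  exact h3 (a, b + n) (Prod.mk_le_mk.2 ⟨le_rfl, Nat.le_add_right _ _⟩)

end fin

section wild

variable {X E H : Type} [NormedAddCommGroup E] [NormedSpace ℝ E] [FiniteDimensional ℝ E]
  [Group H] {hol : H →* (E ≃ᵃ[ℝ] E)} {b : Module.Basis (Fin 3) ℝ E}
  {w : Fin 4 → ℕ} {u : Fin 2 → Fin 4} {k : Fin 4}

theorem mkIr {R : H →* M4} {χ : H →* ℝ} {D : H →* M2} (B : Bl w u k R χ D)
    (hW : Wild (Dh χ D B.pos)) (hne : ∃ γ, χ γ ≠ 1) : Ir χ D where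
  irr := by
    intro U hU
    by_cases h0 : U = ⊥
    · exact Or.inl h0
    · obtain ⟨v, hv, hv0⟩ := Submodule.exists_mem_ne_zero_of_ne_bot h0
      refine Or.inr (irr hW U (fun γ v hv => ?_) hv hv0)
      rw [Dh_apply, Matrix.smul_mulVec]
      exact U.smul_mem _ (hU γ v hv)
  ne := hne
  c := by
    obtain ⟨c, hc, htr⟩ := comm_tr hW
    have h1 := com_char χ hc
    rw [Dh_eq B.pos h1] at htr
    exact ⟨c, h1, com_det D hc, htr⟩

/-- the key statement -/
def Key (w : Fin 4 → ℕ) (u : Fin 2 → Fin 4) (k : Fin 4) : Prop :=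
  ∀ (H : Type) [Group H] (R : H →* M4) (χ : H →* ℝ) (D : H →* M2) (L : AddSubgroup M4),
    Bl w u k R χ D → Ir χ D → La w R L → ∀ x ∈ L, x = 0

theorem key_of (h1 : S_ALL) (h2 : S_ALP) (hw : Cs w u k) : Key w u k := by
  rcases hw with ⟨rfl, rfl, rfl⟩ | ⟨rfl, rfl, rfl⟩
  · exact h1
  · exact h2

variable [TopologicalSpace X] [T2Space X] [SecondCountableTopology X] [ConnectedSpace X]
  [MulAction H X] {dev : X → E}

/-- the wild case -/
theorem case_wild (A : AffData X H E dev hol) (hinj : Function.Injective dev) (hw : Cs w u k)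
    (key : Key w u k) {χ : H →* ℝ} {D : H →* M2} (B : Bl w u k (R4 b hol) χ D)
    (hne : ∃ γ, χ γ ≠ 1) (hW : Wild (Dh χ D B.pos)) : False := by
  have hd := R4_disc (b := b) A hinj
  have hker : ∀ γ, Dh χ D B.pos γ = 1 → R4 b hol γ = 1 := fun γ hγ =>
    ker_triv hw B (fun N hN hc a ha => R4_unip A N hN hc a ha) hd
      (fun L hL => key H _ χ D L B (mkIr B hW hne) hL) hγ
  obtain ⟨ε, hε, h1⟩ := disc_D hw B hW hd
  have hfin : {γ : H | ‖rl (Dh χ D B.pos) γ - 1‖ < ε}.Finite :=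
    (R4_ker_fin (b := b) A hinj).subset fun γ hγ => hker γ (h1 γ hγ)
  refine small_abs A hW (fin_bdd' hW hε hfin) ?_
  rw [Module.finrank_eq_card_basis b, Fintype.card_fin]
  norm_num

/-- **Positive characters.** -/
theorem pos_case (A : AffData X H E dev hol) (hinj : Function.Injective dev) (hw : Cs w u k)
    (key : Key w u k) (ht : ∀ γ i j, w i < w j → R4 b hol γ i j = 0)
    (hpos : ∀ γ, 0 < R4 b hol γ k k) : IsHomeomorph dev := by
  have B : Bl w u k (R4 b hol) (chiH hw ht) (DH hw ht) := mkBl hw ht R4_33 hpos fun γ => by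
    rw [← R4_det]
    exact A.unimod γ
  by_cases hne : ∀ γ, chiH hw ht γ = 1
  · exact case_one A hinj hw B hne
  push Not at hne
  by_cases hline : ∃ K : Subgroup H, K.FiniteIndex ∧ ∃ v : V2, v ≠ 0 ∧
      ∀ γ ∈ K, ∃ c : ℝ, DH hw ht γ *ᵥ v = c • v
  · obtain ⟨K, hK, v, hv, h⟩ := hline
    exact case_line A hinj hw B K hK v hv h
  push Not at hline
  by_cases hbdd : ∃ M : ℝ, ∀ γ i j, |Dh (chiH hw ht) (DH hw ht) B.pos γ i j| ≤ M
  · obtain ⟨M, hM⟩ := hbdd
    exact case_bdd A hinj hw B M hM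
  push Not at hbdd
  refine (case_wild A hinj hw key B hne ⟨fun γ => ?_, fun K hK v hv => ?_, hbdd⟩).elim
  · have h1 := B.det γ
    rw [Dh_apply, Matrix.det_smul, Fintype.card_fin, Real.sq_sqrt (B.pos γ).le, abs_mul,
      abs_of_pos (B.pos γ), mul_comm]
    exact h1
  · obtain ⟨γ, hγ, h⟩ := hline K hK v hv
    refine ⟨γ, hγ, fun c hc => h ((√(chiH hw ht γ))⁻¹ * c) ?_⟩
    have hs : √(chiH hw ht γ) ≠ 0 := (Real.sqrt_pos.2 (B.pos γ)).ne'
    rw [mul_smul, ← hc, Dh_apply, Matrix.smul_mulVec, smul_smul, inv_mul_cancel₀ hs, one_smul]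

end wild

end Pool.Agent.Helper63.Rd
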